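import Mathlib

set_option autoImplicit false

open Finset Real

namespace Pool.Agent.MP_ba6658_pr

/-- Ornstein-Uhlenbeck correlation. -/
noncomputable def ee (a b : ℝ) : ℝ := exp (-|a - b| / 2)

lemma ee_self (a : ℝ) : ee a a = 1 := by simp [ee]

lemma ee_comm (a b : ℝ) : ee a b = ee b a := by unfold ee; rw [abs_sub_comm]

lemma ee_pos (a b : ℝ) : 0 < ee a b := exp_pos _

lemma ee_le_one (a b : ℝ) : ee a b ≤ 1 := by
  unfold ee
  rw [exp_le_one_iff]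
  have := abs_nonneg (a - b)
  linarith

lemma ee_mul {a b c : ℝ} (h1 : a ≤ b) (h2 : b ≤ c) : ee a c = ee a b * ee b c := by
  unfold ee
  rw [← exp_add, abs_of_nonpos (by linarith), abs_of_nonpos (by linarith),
    abs_of_nonpos (by linarith)]
  congr 1; ring

/-- Covariance of two two-point combinations. -/
noncomputable def cv (σ p p' x x' q q' z z' : ℝ) : ℝ :=
  p * q * ee x z + σ * p * q' * ee x z' + σ * p' * q * ee x' z + p' * q' * ee x' z'

lemma cv_comm (σ p p' x x' q q' z z' : ℝ) :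
    cv σ p p' x x' q q' z z' = cv σ q q' z z' p p' x x' := by
  unfold cv
  rw [ee_comm z x, ee_comm z' x, ee_comm z x', ee_comm z' x']
  ring

lemma cv_diag (σ p p' x x' : ℝ) :
    cv σ p p' x x' p p' x x' = p ^ 2 + 2 * (σ * ee x x') * p * p' + p' ^ 2 := by
  unfold cv
  rw [ee_self, ee_self, ee_comm x' x]
  ring

lemma shrink_aux {σ r β p p' : ℝ} (hσ : |σ| ≤ 1) (hr0 : 0 ≤ r) (hr1 : r ≤ 1) (hβ0 : 0 ≤ β)
    (hβ1 : β ≤ 1) :
    (r * β * p) ^ 2 + 2 * σ * (r * β * p) * (β * p') + (β * p') ^ 2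
      ≤ p ^ 2 + 2 * (σ * r) * p * p' + p' ^ 2 := by
  have h1 : σ ^ 2 ≤ 1 := by
    rw [← sq_abs]; exact pow_le_one₀ (abs_nonneg _) hσ
  have h2 : r ^ 2 ≤ 1 := pow_le_one₀ hr0 hr1
  have h3 : β ^ 2 ≤ 1 := pow_le_one₀ hβ0 hβ1
  have h4 : σ ^ 2 * r ^ 2 ≤ 1 := mul_le_one₀ h1 (sq_nonneg _) h2
  have h5 : 0 ≤ (1 - β ^ 2) * (p' + σ * r * p) ^ 2 := mul_nonneg (by linarith) (sq_nonneg _)
  have h6 : 0 ≤ (1 - β ^ 2) * (1 - σ ^ 2 * r ^ 2) * p ^ 2 :=
    mul_nonneg (mul_nonneg (by linarith) (by linarith)) (sq_nonneg _)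
  have h7 : 0 ≤ β ^ 2 * (1 - r ^ 2) * p ^ 2 :=
    mul_nonneg (mul_nonneg (sq_nonneg _) (by linarith)) (sq_nonneg _)
  nlinarith

lemma shrink_left {σ p p' x x' b : ℝ} (hσ : |σ| ≤ 1) (hx : x ≤ b) (hx' : x' ≤ b) :
    (ee x b * p) ^ 2 + 2 * σ * (ee x b * p) * (ee x' b * p') + (ee x' b * p') ^ 2
      ≤ cv σ p p' x x' p p' x x' := by
  rw [cv_diag]
  rcases le_total x x' with h | h
  · rw [ee_mul h hx']
    exact shrink_aux hσ (ee_pos _ _).le (ee_le_one _ _) (ee_pos _ _).le (ee_le_one _ _)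
  · rw [ee_mul h hx, ee_comm x x']
    have := shrink_aux (p := p') (p' := p) hσ (ee_pos x' x).le (ee_le_one _ _) (ee_pos x b).le
      (ee_le_one _ _)
    linarith

lemma shrink_right {σ p p' x x' b : ℝ} (hσ : |σ| ≤ 1) (hx : b ≤ x) (hx' : b ≤ x') :
    (ee b x * p) ^ 2 + 2 * σ * (ee b x * p) * (ee b x' * p') + (ee b x' * p') ^ 2
      ≤ cv σ p p' x x' p p' x x' := by
  rw [cv_diag]
  rcases le_total x x' with h | h
  · rw [ee_mul hx h, mul_comm (ee b x) (ee x x')]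
    have := shrink_aux (p := p') (p' := p) hσ (ee_pos x x').le (ee_le_one _ _) (ee_pos b x).le
      (ee_le_one _ _)
    linarith
  · rw [ee_mul hx' h, mul_comm (ee b x') (ee x' x), ee_comm x x']
    exact shrink_aux hσ (ee_pos _ _).le (ee_le_one _ _) (ee_pos _ _).le (ee_le_one _ _)

lemma psd_aux {σ : ℝ} (hσ : |σ| ≤ 1) (P P' Q Q' : ℝ) :
    |P * Q + σ * P * Q' + σ * P' * Q + P' * Q'|
      ≤ ((P ^ 2 + 2 * σ * P * P' + P' ^ 2) + (Q ^ 2 + 2 * σ * Q * Q' + Q' ^ 2)) / 2 := by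
  have h1 : σ ^ 2 ≤ 1 := by
    rw [← sq_abs]; exact pow_le_one₀ (abs_nonneg _) hσ
  have key : ∀ u u' : ℝ, 0 ≤ u ^ 2 + 2 * σ * u * u' + u' ^ 2 := by
    intro u u'
    have : 0 ≤ (1 - σ ^ 2) * u' ^ 2 := mul_nonneg (by linarith) (sq_nonneg _)
    nlinarith [sq_nonneg (u + σ * u')]
  rw [abs_le]
  constructor
  · have := key (P + Q) (P' + Q')
    nlinarith
  · have := key (P - Q) (P' - Q')
    nlinarith

lemma cv_cross {σ p p' x x' q q' z z' a b : ℝ} (hσ : |σ| ≤ 1) (hx : x ≤ b) (hx' : x' ≤ b)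
    (hba : b ≤ a) (hz : a ≤ z) (hz' : a ≤ z') :
    |cv σ p p' x x' q q' z z'|
      ≤ ee b a * ((cv σ p p' x x' p p' x x' + cv σ q q' z z' q q' z z') / 2) := by
  have e1 : cv σ p p' x x' q q' z z' = ee b a *
      ((ee x b * p) * (ee a z * q) + σ * (ee x b * p) * (ee a z' * q')
        + σ * (ee x' b * p') * (ee a z * q) + (ee x' b * p') * (ee a z' * q')) := by
    unfold cv
    rw [ee_mul hx (hba.trans hz), ee_mul hx (hba.trans hz'), ee_mul hx' (hba.trans hz),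
      ee_mul hx' (hba.trans hz'), ee_mul hba hz, ee_mul hba hz']
    ring
  rw [e1, abs_mul, abs_of_pos (ee_pos _ _)]
  refine mul_le_mul_of_nonneg_left ((psd_aux hσ _ _ _ _).trans ?_) (ee_pos _ _).le
  have h1 := shrink_left (p := p) (p' := p') hσ hx hx'
  have h2 := shrink_right (p := q) (p' := q') hσ hz hz'
  linarith

lemma sum_half_pow_le (k : ℕ) : ∑ l : Fin k, (1 / 2 : ℝ) ^ (l.1 + 1) ≤ 1 := by
  rw [Fin.sum_univ_eq_sum_range (fun l => (1 / 2 : ℝ) ^ (l + 1))]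
  have : ∑ l ∈ range k, (1 / 2 : ℝ) ^ (l + 1) = 1 - (1 / 2) ^ k := by
    induction k with
    | zero => simp
    | succ k ih => rw [sum_range_succ, ih]; ring
  rw [this]
  have : (0 : ℝ) ≤ (1 / 2) ^ k := by positivity
  linarith

lemma matrix_bound {k : ℕ} (M : Fin k → Fin k → ℝ) (hd : ∀ j, 0 ≤ M j j)
    (h : ∀ j l, j ≠ l → |M j l| ≤
      (1 / 2 : ℝ) ^ (j.1 + 1) * (1 / 2 : ℝ) ^ (l.1 + 1) * ((M j j + M l l) / 2)) :
    |∑ j, ∑ l, M j l - ∑ j, M j j| ≤ ∑ j, (1 / 2 : ℝ) ^ (j.1 + 1) * M j j := by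
  set g : Fin k → ℝ := fun j => (1 / 2 : ℝ) ^ (j.1 + 1) with hg
  have hg0 : ∀ j, 0 ≤ g j := fun j => by simp only [hg]; positivity
  have hs : ∑ l, g l ≤ 1 := sum_half_pow_le k
  have e1 : ∑ j, ∑ l, M j l - ∑ j, M j j = ∑ j, ∑ l, (if j = l then 0 else M j l) := by
    rw [← sum_sub_distrib]
    refine sum_congr rfl fun j _ => ?_
    have : ∑ l, M j l = ∑ l, ((if j = l then 0 else M j l) + (if j = l then M j l else 0)) := by
      refine sum_congr rfl fun l _ => ?_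
      split_ifs <;> simp
    rw [this, sum_add_distrib]
    simp
  rw [e1]
  have hT : 0 ≤ ∑ j, g j * M j j := sum_nonneg fun j _ => mul_nonneg (hg0 j) (hd j)
  calc |∑ j, ∑ l, (if j = l then 0 else M j l)|
      ≤ ∑ j, ∑ l, g j * g l * ((M j j + M l l) / 2) := by
        refine (abs_sum_le_sum_abs _ _).trans (sum_le_sum fun j _ => ?_)
        refine (abs_sum_le_sum_abs _ _).trans (sum_le_sum fun l _ => ?_)
        split_ifs with hjl
        · rw [abs_zero]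
          have := hd j
          have := hd l
          have := hg0 j
          have := hg0 l
          positivity
        · exact h j l hjl
    _ = (∑ j, g j * M j j) * (∑ l, g l) / 2 + (∑ l, g l) * (∑ j, g j * M j j) / 2 := by
        rw [sum_mul_sum, sum_mul_sum, sum_div, sum_div, ← sum_add_distrib]
        refine sum_congr rfl fun j _ => ?_
        rw [sum_div, sum_div, ← sum_add_distrib]
        refine sum_congr rfl fun l _ => by ring
    _ ≤ ∑ j, g j * M j j := by nlinarith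

/-- Left end of the `j`-th window in logarithmic time. -/
noncomputable def aa (j : ℕ) : ℝ := 4 ^ (j + 2)

lemma aa_pos (j : ℕ) : 0 < aa j := by unfold aa; positivity

lemma ee_window {j l : ℕ} (h : j < l) :
    2 * aa j ≤ aa l ∧ ee (2 * aa j) (aa l) ≤ (1 / 2 : ℝ) ^ (j + 1) * (1 / 2 : ℝ) ^ (l + 1) := by
  have h1 : 4 * aa j ≤ aa l := by
    unfold aa
    rw [← pow_succ']
    exact pow_le_pow_right₀ (by norm_num) (by omega)
  have h0 := aa_pos j
  refine ⟨by linarith, ?_⟩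
  unfold ee
  rw [abs_of_nonpos (by linarith)]
  have h2 : (4 : ℝ) ^ (l + 1) ≤ -(2 * aa j - aa l) / 2 := by
    have : aa l = 4 * 4 ^ (l + 1) := by unfold aa; ring
    linarith
  have h3 : (4 : ℝ) ^ (l + 1) ≤ exp (-(2 * aa j - aa l) / 2) := by
    have := add_one_le_exp (-(2 * aa j - aa l) / 2)
    linarith
  have h4 : (1 / 2 : ℝ) ^ (l + 1) ≤ (1 / 2 : ℝ) ^ (j + 1) :=
    pow_le_pow_of_le_one (by norm_num) (by norm_num) (by omega)
  rw [neg_div, exp_neg]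
  calc (exp (-(2 * aa j - aa l) / 2))⁻¹ ≤ ((4 : ℝ) ^ (l + 1))⁻¹ :=
        inv_anti₀ (by positivity) h3
    _ = (1 / 2 : ℝ) ^ (l + 1) * (1 / 2 : ℝ) ^ (l + 1) := by
        rw [← mul_pow, ← inv_pow]; norm_num
    _ ≤ _ := mul_le_mul_of_nonneg_right h4 (by positivity)

lemma cv_diag_nonneg {σ : ℝ} (hσ : |σ| ≤ 1) (p p' x x' : ℝ) : 0 ≤ cv σ p p' x x' p p' x x' := by
  rw [cv_diag]
  have h1 : (σ * ee x x') ^ 2 ≤ 1 := by
    rw [← sq_abs]
    refine pow_le_one₀ (abs_nonneg _) ?_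
    rw [abs_mul, abs_of_pos (ee_pos _ _)]
    exact mul_le_one₀ hσ (ee_pos _ _).le (ee_le_one _ _)
  have : 0 ≤ (1 - (σ * ee x x') ^ 2) * p' ^ 2 := mul_nonneg (by linarith) (sq_nonneg _)
  nlinarith [sq_nonneg (p + σ * ee x x' * p')]

/-- The quadratic form of window points is close to its block diagonal part. -/
lemma quad_bound {k : ℕ} {σ : ℝ} (hσ : |σ| ≤ 1) (p p' x x' : Fin k → ℝ)
    (hx : ∀ j : Fin k, aa j ≤ x j ∧ x j ≤ 2 * aa j)
    (hx' : ∀ j : Fin k, aa j ≤ x' j ∧ x' j ≤ 2 * aa j) :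
    |∑ j, ∑ l, cv σ (p j) (p' j) (x j) (x' j) (p l) (p' l) (x l) (x' l)
        - ∑ j, cv σ (p j) (p' j) (x j) (x' j) (p j) (p' j) (x j) (x' j)|
      ≤ ∑ j : Fin k, (1 / 2 : ℝ) ^ (j.1 + 1)
          * cv σ (p j) (p' j) (x j) (x' j) (p j) (p' j) (x j) (x' j) := by
  have key : ∀ j l : Fin k, j.1 < l.1 →
      |cv σ (p j) (p' j) (x j) (x' j) (p l) (p' l) (x l) (x' l)| ≤
        (1 / 2 : ℝ) ^ (j.1 + 1) * (1 / 2 : ℝ) ^ (l.1 + 1) *
          ((cv σ (p j) (p' j) (x j) (x' j) (p j) (p' j) (x j) (x' j)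
            + cv σ (p l) (p' l) (x l) (x' l) (p l) (p' l) (x l) (x' l)) / 2) := by
    intro j l hjl
    obtain ⟨h1, h2⟩ := ee_window hjl
    refine (cv_cross hσ (hx j).2 (hx' j).2 h1 (hx l).1 (hx' l).1).trans ?_
    refine mul_le_mul_of_nonneg_right h2 ?_
    have := cv_diag_nonneg hσ (p j) (p' j) (x j) (x' j)
    have := cv_diag_nonneg hσ (p l) (p' l) (x l) (x' l)
    positivity
  refine matrix_bound (fun j l => cv σ (p j) (p' j) (x j) (x' j) (p l) (p' l) (x l) (x' l))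
    (fun j => cv_diag_nonneg hσ _ _ _ _) (fun j l hjl => ?_)
  rcases lt_or_gt_of_ne (Fin.val_ne_of_ne hjl) with h | h
  · exact key j l h
  · have := key l j h
    rw [cv_comm] at this
    refine this.trans (le_of_eq ?_)
    ring

end Pool.Agent.MP_ba6658_pr
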