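import Pool.Agent.MP_ba6658_pr.Tent
import Pool.Agent.MP_ba6658_pr.Quad

set_option autoImplicit false

open Finset Filter Topology MeasureTheory Real

namespace Pool.Agent.MP_ba6658_pr

/-- Uniform measure on the unit interval. -/
noncomputable def nu : Measure ℝ := volume.restrict (Set.Ioc 0 1)

instance : IsProbabilityMeasure nu := ⟨by simp [nu]⟩

lemma integral_nu (f : ℝ → ℝ) : ∫ u, f u ∂nu = ∫ u in (0 : ℝ)..1, f u := by
  rw [intervalIntegral.integral_of_le zero_le_one]; rfl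

lemma integral_nu_cl (f : ℝ → ℝ) : ∫ u, f (cl u) ∂nu = ∫ u in (0 : ℝ)..1, f u := by
  rw [integral_nu]
  refine intervalIntegral.integral_congr fun u hu => ?_
  rw [Set.uIcc_of_le zero_le_one] at hu
  simp only [cl_of_mem hu.1 hu.2]

lemma integral_abs_split (F : ℝ → ℝ) {u0 : ℝ} (h0 : 0 ≤ u0) (h1 : u0 ≤ 1)
    (hi1 : IntervalIntegrable (fun u => F |u0 - u|) volume 0 u0)
    (hi2 : IntervalIntegrable (fun u => F |u0 - u|) volume u0 1) :
    ∫ u in (0 : ℝ)..1, F |u0 - u|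
      = (∫ s in (0 : ℝ)..u0, F s) + ∫ s in (0 : ℝ)..(1 - u0), F s := by
  rw [← intervalIntegral.integral_add_adjacent_intervals hi1 hi2]
  congr 1
  · have : ∫ u in (0 : ℝ)..u0, F |u0 - u| = ∫ u in (0 : ℝ)..u0, F (u0 - u) := by
      refine intervalIntegral.integral_congr fun u hu => ?_
      rw [Set.uIcc_of_le h0] at hu
      simp only [abs_of_nonneg (sub_nonneg.2 hu.2)]
    rw [this, intervalIntegral.integral_comp_sub_left]
    simp
  · have : ∫ u in u0..1, F |u0 - u| = ∫ u in u0..1, F (u - u0) := by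
      refine intervalIntegral.integral_congr fun u hu => ?_
      rw [Set.uIcc_of_le h1] at hu
      simp only [abs_of_nonpos (sub_nonpos.2 hu.1), neg_sub]
    rw [this, intervalIntegral.integral_comp_sub_right]
    simp

lemma one_sub_pos {ρ t : ℝ} (hρ0 : 0 ≤ ρ) (_hρ1 : ρ < 1) (ht : 0 ≤ t) :
    1 - ρ ≤ 1 - ρ * exp (-t) ∧ 1 - ρ * exp (-t) ≤ 1 := by
  have h1 : exp (-t) ≤ 1 := by rw [exp_le_one_iff]; linarith
  have h2 := exp_pos (-t)
  constructor <;> nlinarith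

lemma half_window {ρ a c : ℝ} (hρ0 : 0 ≤ ρ) (hρ1 : ρ < 1) (ha : 0 < a) (hc : 0 ≤ c) :
    ∫ s in (0 : ℝ)..c, (1 - ρ * exp (-(a * s)))⁻¹ ≤ c + (-log (1 - ρ)) / a := by
  have hpos : ∀ s ∈ Set.uIcc 0 c, 0 < 1 - ρ * exp (-(a * s)) := by
    intro s hs
    rw [Set.uIcc_of_le hc] at hs
    have := (one_sub_pos hρ0 hρ1 (mul_nonneg ha.le hs.1)).1
    linarith
  have hder : ∀ s ∈ Set.uIcc 0 c, HasDerivAt (fun s => s + log (1 - ρ * exp (-(a * s))) / a)
      ((1 - ρ * exp (-(a * s)))⁻¹) s := by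
    intro s hs
    have h1 : HasDerivAt (fun s => 1 - ρ * exp (-(a * s))) (-(ρ * (exp (-(a * s)) * -(a * 1)))) s :=
      (((hasDerivAt_id s).const_mul a).neg.exp.const_mul ρ).const_sub 1
    have h2 := (hasDerivAt_id s).add ((h1.log (hpos s hs).ne').div_const a)
    have h3 : (1 - ρ * exp (-(a * s)))⁻¹
        = 1 + -(ρ * (exp (-(a * s)) * -(a * 1))) / (1 - ρ * exp (-(a * s))) / a := by
      have := (hpos s hs).ne'
      field_simp
      ring
    rw [h3]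
    exact h2
  have hcont : ContinuousOn (fun s => (1 - ρ * exp (-(a * s)))⁻¹) (Set.uIcc 0 c) :=
    ContinuousOn.inv₀ (by fun_prop) (fun s hs => (hpos s hs).ne')
  rw [intervalIntegral.integral_eq_sub_of_hasDerivAt hder hcont.intervalIntegrable]
  have h3 : log (1 - ρ * exp (-(a * c))) ≤ 0 :=
    log_nonpos (hpos c (by simp)).le (one_sub_pos hρ0 hρ1 (mul_nonneg ha.le hc)).2
  have h4 : log (1 - ρ * exp (-(a * c))) / a ≤ 0 := div_nonpos_of_nonpos_of_nonneg h3 ha.le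
  simp only [mul_zero, neg_zero, exp_zero, mul_one, zero_add]
  rw [neg_div]
  linarith

lemma ee_sq (x z : ℝ) : ee x z ^ 2 = exp (-|x - z|) := by
  unfold ee
  rw [pow_two, ← exp_add]
  congr 1; ring

/-- Position in the `j`-th window. -/
noncomputable def pos (j : ℕ) (u : ℝ) : ℝ := aa j * (1 + cl u)

lemma pos_mem (j : ℕ) (u : ℝ) : aa j ≤ pos j u ∧ pos j u ≤ 2 * aa j := by
  unfold pos
  have := aa_pos j
  have := cl_nonneg u
  have := cl_le_one u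
  constructor <;> nlinarith

lemma pos_cont (j : ℕ) : Continuous (pos j) := by
  unfold pos
  have := cl_cont
  fun_prop

lemma win_eq (σ : ℝ) (j : ℕ) (u0 u : ℝ) :
    (1 - (σ * ee (pos j u0) (pos j u)) ^ 2)⁻¹
      = (1 - σ ^ 2 * exp (-(aa j * |cl u0 - cl u|)))⁻¹ := by
  rw [mul_pow, ee_sq]
  unfold pos
  rw [← mul_sub, abs_mul, abs_of_pos (aa_pos j)]
  have : 1 + cl u0 - (1 + cl u) = cl u0 - cl u := by ring
  rw [this]

lemma win_cont {ρ a : ℝ} (hρ0 : 0 ≤ ρ) (hρ1 : ρ < 1) (ha : 0 < a) (w : ℝ) :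
    Continuous (fun u => (1 - ρ * exp (-(a * |w - u|)))⁻¹) := by
  refine Continuous.inv₀ (by fun_prop) fun u => ?_
  have := (one_sub_pos hρ0 hρ1 (mul_nonneg ha.le (abs_nonneg (w - u)))).1
  linarith

lemma window_integrable {σ : ℝ} (hσ : σ ^ 2 < 1) (j : ℕ) (u0 : ℝ) :
    Integrable (fun u => (1 - (σ * ee (pos j u0) (pos j u)) ^ 2)⁻¹) nu := by
  simp_rw [win_eq]
  have h := (win_cont (sq_nonneg σ) hσ (aa_pos j) (cl u0)).comp cl_cont
  exact (h.intervalIntegrable 0 1).1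

lemma window_bound {σ : ℝ} (hσ : σ ^ 2 < 1) (j : ℕ) (u0 : ℝ) :
    ∫ u, (1 - (σ * ee (pos j u0) (pos j u)) ^ 2)⁻¹ ∂nu
      ≤ exp ((1 / 2 : ℝ) ^ (j + 1) * (-log (1 - σ ^ 2) / 2)) := by
  simp_rw [win_eq]
  have hc := win_cont (sq_nonneg σ) hσ (aa_pos j) (cl u0)
  rw [integral_nu_cl (fun u => (1 - σ ^ 2 * exp (-(aa j * |cl u0 - u|)))⁻¹),
    integral_abs_split (fun s => (1 - σ ^ 2 * exp (-(aa j * s)))⁻¹) (cl_nonneg u0) (cl_le_one u0)
      (hc.intervalIntegrable _ _) (hc.intervalIntegrable _ _)]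
  have h1 := half_window (sq_nonneg σ) hσ (aa_pos j) (cl_nonneg u0)
  have h2 := half_window (c := 1 - cl u0) (sq_nonneg σ) hσ (aa_pos j)
    (by linarith [cl_le_one u0])
  have hL : 0 ≤ -log (1 - σ ^ 2) := by
    have := log_nonpos (x := 1 - σ ^ 2) (by linarith) (by linarith [sq_nonneg σ])
    linarith
  have h3 : 2 * (-log (1 - σ ^ 2) / aa j) ≤ (1 / 2 : ℝ) ^ (j + 1) * (-log (1 - σ ^ 2) / 2) := by
    have h4 : 2 / aa j ≤ (1 / 2 : ℝ) ^ (j + 1) / 2 := by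
      unfold aa
      rw [div_le_div_iff₀ (by positivity) (by norm_num)]
      have h5 : (1 / 2 : ℝ) ^ (j + 1) * 4 ^ (j + 2) = 4 * 2 ^ (j + 1) := by
        rw [pow_succ (4 : ℝ) (j + 1), ← mul_assoc, ← mul_pow]; norm_num; ring
      rw [h5]
      have : (1 : ℝ) ≤ 2 ^ (j + 1) := one_le_pow₀ (by norm_num)
      linarith
    calc 2 * (-log (1 - σ ^ 2) / aa j) = 2 / aa j * (-log (1 - σ ^ 2)) := by ring
      _ ≤ (1 / 2 : ℝ) ^ (j + 1) / 2 * (-log (1 - σ ^ 2)) := mul_le_mul_of_nonneg_right h4 hL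
      _ = _ := by ring
  have h6 := add_one_le_exp ((1 / 2 : ℝ) ^ (j + 1) * (-log (1 - σ ^ 2) / 2))
  linarith

lemma windows_bound {σ : ℝ} (hσ : σ ^ 2 < 1) {k : ℕ} (u0 : Fin k → ℝ) :
    ∫ u : Fin k → ℝ, ∏ j : Fin k, (1 - (σ * ee (pos j (u0 j)) (pos j (u j))) ^ 2)⁻¹
        ∂(Measure.pi fun _ => nu)
      ≤ (√(1 - σ ^ 2))⁻¹ := by
  rw [integral_fintype_prod_eq_prod
    (fun (j : Fin k) (t : ℝ) => (1 - (σ * ee (pos j (u0 j)) (pos j t)) ^ 2)⁻¹)]
  have hL : 0 ≤ -log (1 - σ ^ 2) := by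
    have := log_nonpos (x := 1 - σ ^ 2) (by linarith) (by linarith [sq_nonneg σ])
    linarith
  refine le_trans (prod_le_prod (fun j _ => integral_nonneg fun t => ?_)
    (fun j _ => window_bound hσ j (u0 j))) ?_
  · simp only [win_eq]
    have := (one_sub_pos (sq_nonneg σ) hσ
      (mul_nonneg (aa_pos j).le (abs_nonneg (cl (u0 j) - cl t)))).1
    exact inv_nonneg.2 (by linarith)
  rw [← exp_sum, ← sum_mul]
  have h1 := sum_half_pow_le k
  have h2 : (√(1 - σ ^ 2))⁻¹ = exp (-log (1 - σ ^ 2) / 2) := by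
    rw [neg_div, exp_neg, ← log_sqrt (by linarith), exp_log (sqrt_pos.2 (by linarith))]
  rw [h2, exp_le_exp]
  exact mul_le_of_le_one_left (by linarith) h1

lemma sing_le {y y' : ℝ} (hy : y ≠ y') (h1 : |y - y'| ≤ 1) :
    (√(1 - ee y y' ^ 2))⁻¹ ≤ 2 * |y - y'| ^ (-1 / 2 : ℝ) := by
  set w := |y - y'| with hw
  have hw0 : 0 < w := abs_pos.2 (sub_ne_zero.2 hy)
  rw [ee_sq, ← hw]
  have h2 : exp (-w) ≤ 1 - w / 4 := by
    have h3 := add_one_le_exp w
    rw [exp_neg, inv_le_comm₀ (exp_pos _) (by linarith)]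
    refine le_trans ?_ h3
    rw [inv_le_iff_one_le_mul₀ (by linarith)]
    nlinarith
  have h4 : √(w / 4) ≤ √(1 - exp (-w)) := sqrt_le_sqrt (by linarith)
  have h5 : √(w / 4) = √w / 2 := by
    rw [sqrt_div hw0.le, show (4 : ℝ) = 2 ^ 2 by norm_num, sqrt_sq (by norm_num)]
  have h6 : w ^ (-1 / 2 : ℝ) = (√w)⁻¹ := by
    rw [sqrt_eq_rpow, ← rpow_neg hw0.le]; norm_num
  rw [h6]
  have h7 : 0 < √w := sqrt_pos.2 hw0
  calc (√(1 - exp (-w)))⁻¹ ≤ (√w / 2)⁻¹ := inv_anti₀ (by positivity) (h5 ▸ h4)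
    _ = 2 * (√w)⁻¹ := by field_simp

lemma sing_int_left {y : ℝ} (h0 : 0 ≤ y) :
    IntervalIntegrable (fun u => |y - u| ^ (-1 / 2 : ℝ)) volume 0 y := by
  have h := (intervalIntegral.intervalIntegrable_rpow' (r := -1 / 2) (a := y) (b := 0)
    (by norm_num)).comp_sub_left y
  simp only [sub_self, sub_zero] at h
  refine h.congr fun u hu => ?_
  rw [Set.uIoc_of_le h0] at hu
  simp only [abs_of_nonneg (sub_nonneg.2 hu.2)]

lemma sing_int_right {y : ℝ} (h1 : y ≤ 1) :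
    IntervalIntegrable (fun u => |y - u| ^ (-1 / 2 : ℝ)) volume y 1 := by
  have h := (intervalIntegral.intervalIntegrable_rpow' (r := -1 / 2) (a := 0) (b := 1 - y)
    (by norm_num)).comp_sub_right y
  simp only [zero_add, sub_add_cancel] at h
  refine h.congr fun u hu => ?_
  rw [Set.uIoc_of_le h1] at hu
  simp only [abs_of_nonpos (sub_nonpos.2 hu.1.le), neg_sub]

lemma sing_integrable {y : ℝ} (h0 : 0 ≤ y) (h1 : y ≤ 1) :
    Integrable (fun u => |y - u| ^ (-1 / 2 : ℝ)) nu :=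
  ((sing_int_left h0).trans (sing_int_right h1)).1

lemma sing_bound {y : ℝ} (h0 : 0 ≤ y) (h1 : y ≤ 1) :
    ∫ u, |y - u| ^ (-1 / 2 : ℝ) ∂nu ≤ 4 := by
  rw [integral_nu, integral_abs_split (fun s => s ^ (-1 / 2 : ℝ)) h0 h1 (sing_int_left h0)
    (sing_int_right h1)]
  have key : ∀ c : ℝ, 0 ≤ c → c ≤ 1 → ∫ s in (0 : ℝ)..c, s ^ (-1 / 2 : ℝ) ≤ 2 := by
    intro c hc0 hc1
    rw [integral_rpow (Or.inl (by norm_num))]
    have h2 : c ^ (-1 / 2 + 1 : ℝ) ≤ 1 := rpow_le_one hc0 hc1 (by norm_num)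
    have h3 : (0 : ℝ) ^ (-1 / 2 + 1 : ℝ) = 0 := zero_rpow (by norm_num)
    rw [h3, div_le_iff₀ (by norm_num)]
    linarith
  have := key y h0 h1
  have := key (1 - y) (by linarith) (by linarith)
  linarith

end Pool.Agent.MP_ba6658_pr
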