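import Pool.Agent.MP_ba6658_pr.Moments
import Pool.Agent.MP_ba6658_pr.Window

set_option autoImplicit false

open Finset Filter Topology MeasureTheory ProbabilityTheory Real
open scoped NNReal ENNReal

namespace Pool.Agent.MP_ba6658_pr

lemma no_concentration {Ω : Type*} [MeasurableSpace Ω] (P : Measure Ω) [IsProbabilityMeasure P]
    (X : ℕ → Ω → ℝ) (hm : ∀ n, Measurable (X n)) (h0 : ∀ n ω, 0 ≤ X n ω)
    (hb : ∀ n, ∃ B, ∀ ω, X n ω ≤ B) {c C : ℝ} (hc : 0 < c) (hC : 0 < C)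
    (h1 : ∀ n, c ≤ ∫ ω, X n ω ∂P) (h2 : ∀ n, ∫ ω, X n ω ^ 2 ∂P ≤ C)
    (hlim : ∀ᵐ ω ∂P, Tendsto (fun n => X n ω) atTop (𝓝 0)) : False := by
  set M : ℝ := 2 * C / c with hM
  have hM0 : 0 < M := by positivity
  have hlim2 : Tendsto (fun n => ∫ ω, min (X n ω) M ∂P) atTop (𝓝 (∫ _ω, (0 : ℝ) ∂P)) := by
    refine tendsto_integral_of_dominated_convergence (fun _ => M) (fun n => ?_)
      (integrable_const _) (fun n => Eventually.of_forall fun ω => ?_) ?_
    · exact ((hm n).min measurable_const).aestronglyMeasurable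
    · rw [Real.norm_eq_abs, abs_of_nonneg (le_min (h0 n ω) hM0.le)]
      exact min_le_right _ _
    · filter_upwards [hlim] with ω hω
      have := hω.min (tendsto_const_nhds (x := M))
      rwa [min_eq_left hM0.le] at this
  rw [integral_zero] at hlim2
  have hlow : ∀ n, c / 2 ≤ ∫ ω, min (X n ω) M ∂P := by
    intro n
    obtain ⟨B, hB⟩ := hb n
    have i1 : Integrable (fun ω => min (X n ω) M) P := by
      refine Integrable.of_bound (C := M) ((hm n).min measurable_const).aestronglyMeasurable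
        (Eventually.of_forall fun ω => ?_)
      rw [Real.norm_eq_abs, abs_of_nonneg (le_min (h0 n ω) hM0.le)]
      exact min_le_right _ _
    have i2 : Integrable (fun ω => X n ω ^ 2) P := by
      refine Integrable.of_bound (C := B ^ 2) ((hm n).pow_const 2).aestronglyMeasurable
        (Eventually.of_forall fun ω => ?_)
      rw [Real.norm_eq_abs, abs_of_nonneg (sq_nonneg _)]
      exact pow_le_pow_left₀ (h0 n ω) (hB ω) 2
    have h3 : ∫ ω, X n ω ∂P ≤ ∫ ω, (min (X n ω) M + X n ω ^ 2 / M) ∂P := by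
      refine integral_mono_of_nonneg (Eventually.of_forall (h0 n)) (i1.add (i2.div_const M))
        (Eventually.of_forall fun ω => ?_)
      simp only
      rcases le_total (X n ω) M with h | h
      · rw [min_eq_left h]
        have : 0 ≤ X n ω ^ 2 / M := by positivity
        linarith
      · rw [min_eq_right h]
        have : X n ω ≤ X n ω ^ 2 / M := by
          rw [le_div_iff₀ hM0]
          have := h0 n ω
          nlinarith
        linarith
    rw [integral_add i1 (i2.div_const M), integral_div] at h3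
    have h4 : (∫ ω, X n ω ^ 2 ∂P) / M ≤ C / M := div_le_div_of_nonneg_right (h2 n) hM0.le
    have h5 : C / M = c / 2 := by rw [hM]; field_simp
    have := h1 n
    linarith
  have := ge_of_tendsto' hlim2 hlow
  linarith

lemma integrable_unit {α : Type*} [MeasurableSpace α] (μ : Measure α) [IsFiniteMeasure μ]
    {f : α → ℝ} (hf : Measurable f) (h0 : ∀ a, 0 ≤ f a) (h1 : ∀ a, f a ≤ 1) : Integrable f μ :=
  Integrable.of_bound (C := 1) hf.aestronglyMeasurable (Eventually.of_forall fun a => by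
    rw [Real.norm_eq_abs, abs_of_nonneg (h0 a)]; exact h1 a)

lemma integral_unit_le {α : Type*} [MeasurableSpace α] (μ : Measure α) [IsProbabilityMeasure μ]
    {f : α → ℝ} (h0 : ∀ a, 0 ≤ f a) {B : ℝ} (h1 : ∀ a, f a ≤ B) : ∫ a, f a ∂μ ≤ B := by
  have := integral_mono_of_nonneg (μ := μ) (Eventually.of_forall h0) (integrable_const B)
    (Eventually.of_forall h1)
  simpa using this

lemma second_moment_general {Θ Ω : Type*} [MeasurableSpace Θ] [MeasurableSpace Ω]
    (μ : Measure Θ) [IsProbabilityMeasure μ] (P : Measure Ω) [IsProbabilityMeasure P]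
    (H : Θ → Ω → ℝ) (hm : Measurable (fun q : Θ × Ω => H q.1 q.2))
    (h0 : ∀ θ ω, 0 ≤ H θ ω) (h1 : ∀ θ ω, H θ ω ≤ 1) {C : ℝ}
    (hC : ∀ θ, ∫ θ', (∫ ω, H θ ω * H θ' ω ∂P) ∂μ ≤ C) :
    ∫ ω, (∫ θ, H θ ω ∂μ) ^ 2 ∂P ≤ C := by
  have hX : Measurable (fun ω => ∫ θ, H θ ω ∂μ) :=
    (hm.stronglyMeasurable.integral_prod_left' (μ := μ)).measurable
  have hX0 : ∀ ω, 0 ≤ ∫ θ, H θ ω ∂μ := fun ω => integral_nonneg fun θ => h0 θ ω
  have hX1 : ∀ ω, ∫ θ, H θ ω ∂μ ≤ 1 := fun ω => integral_unit_le μ (fun θ => h0 θ ω) fun θ => h1 θ ω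
  have e1 : ∀ ω, (∫ θ, H θ ω ∂μ) ^ 2 = ∫ θ, H θ ω * (∫ θ', H θ' ω ∂μ) ∂μ := by
    intro ω
    rw [integral_mul_const, pow_two]
  simp_rw [e1]
  rw [← integral_integral_swap (f := fun θ ω => H θ ω * (∫ θ', H θ' ω ∂μ))]
  · refine integral_unit_le μ (fun θ => integral_nonneg fun ω => mul_nonneg (h0 θ ω) (hX0 ω))
      fun θ => ?_
    simp_rw [← integral_const_mul]
    rw [← integral_integral_swap (f := fun θ' ω => H θ ω * H θ' ω)]
    · exact hC θ
    · refine integrable_unit _ ?_ (fun q => mul_nonneg (h0 _ _) (h0 _ _))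
        (fun q => mul_le_one₀ (h1 _ _) (h0 _ _) (h1 _ _))
      exact (hm.comp (measurable_const.prodMk measurable_snd)).mul hm
  · refine integrable_unit _ ?_ (fun q => mul_nonneg (h0 _ _) (hX0 _))
      (fun q => mul_le_one₀ (h1 _ _) (hX0 _) (hX1 _))
    exact hm.mul (hX.comp measurable_snd)

/-- Parameter measure. -/
noncomputable def mu (k : ℕ) : Measure (ℝ × (Fin k → ℝ)) := nu.prod (Measure.pi fun _ => nu)

instance (k : ℕ) : IsProbabilityMeasure (mu k) := by unfold mu; infer_instance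

/-- The mollifier as a function of the parameter. -/
noncomputable def HH (k : ℕ) (v : ℝ≥0) (θ : ℝ × (Fin k → ℝ)) (ω : Om) : ℝ :=
  EE v (cl θ.1) (fun j => pos j (θ.2 j)) ω

lemma HH_meas (k : ℕ) (v : ℝ≥0) :
    Measurable (fun q : (ℝ × (Fin k → ℝ)) × Om => HH k v q.1 q.2) := by
  unfold HH EE
  refine Finset.measurable_prod _ fun b _ => ?_
  have h1 : Measurable (fun q : (ℝ × (Fin k → ℝ)) × Om =>
      ou b.2 (cl q.1.1) (pos b.1 (q.1.2 b.1)) q.2) := by
    have h2 : Measurable (fun q : (ℝ × (Fin k → ℝ)) × Om =>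
        ((cl q.1.1, pos b.1 (q.1.2 b.1)), q.2)) := by
      have := cl_cont.measurable
      have := (pos_cont b.1).measurable
      fun_prop
    exact (ou_joint b.2).comp h2
  fun_prop

lemma first_moment {k : ℕ} {v : ℝ≥0} (hv : v ≠ 0) (hkv : (k : ℝ) ≤ v) :
    exp (-2) ≤ ∫ ω, (v : ℝ) ^ k * ∫ θ, HH k v θ ω ∂(mu k) ∂(gaussPi (Idx 2)) := by
  rw [integral_const_mul, ← integral_integral_swap (f := fun θ ω => HH k v θ ω), ← integral_const_mul]
  · have h := integral_mono_of_nonneg (μ := mu k) (f := fun _ => exp (-2))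
      (g := fun θ => (v : ℝ) ^ k * ∫ ω, HH k v θ ω ∂(gaussPi (Idx 2)))
      (Eventually.of_forall fun _ => (exp_pos _).le) ?_
      (Eventually.of_forall fun θ => first_moment_pt hv hkv _ _ (fun j => pos_mem j _))
    · simpa using h
    · refine Integrable.const_mul (integrable_unit _ ?_
        (fun θ => integral_nonneg fun ω => EE_nonneg _ _ _ _)
        (fun θ => integral_unit_le _ (fun ω => EE_nonneg _ _ _ _) fun ω => EE_le_one _ _ _ _)) _
      exact ((HH_meas k v).stronglyMeasurable.integral_prod_right'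
        (ν := gaussPi (Idx 2))).measurable
  · exact integrable_unit _ (f := fun q : (ℝ × (Fin k → ℝ)) × Om => HH k v q.1 q.2) (HH_meas k v)
      (fun q => EE_nonneg v (cl q.1.1) (fun j => pos j (q.1.2 j)) q.2)
      (fun q => EE_le_one v (cl q.1.1) (fun j => pos j (q.1.2 j)) q.2)

lemma second_moment {k : ℕ} {v : ℝ≥0} (hv : v ≠ 0) :
    ∫ ω, ((v : ℝ) ^ k * ∫ θ, HH k v θ ω ∂(mu k)) ^ 2 ∂(gaussPi (Idx 2)) ≤ exp 4 * 8 := by
  have hv0 : (0 : ℝ) < v := by positivity
  have hvk : (0 : ℝ) < (v : ℝ) ^ k * (v : ℝ) ^ k := by positivity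
  simp_rw [mul_pow]
  rw [integral_const_mul, pow_two ((v : ℝ) ^ k), ← le_div_iff₀' hvk]
  refine second_moment_general (mu k) _ (HH k v) (HH_meas k v) (fun _ _ => EE_nonneg _ _ _ _)
    (fun _ _ => EE_le_one _ _ _ _) fun θ => ?_
  rw [le_div_iff₀' hvk, ← integral_const_mul]
  set G : ℝ × (Fin k → ℝ) → ℝ := fun θ' =>
    (v : ℝ) ^ k * (v : ℝ) ^ k * ∫ ω, HH k v θ ω * HH k v θ' ω ∂(gaussPi (Idx 2)) with hG
  have hG0 : ∀ θ', 0 ≤ G θ' := fun θ' => mul_nonneg hvk.le
    (integral_nonneg fun ω => mul_nonneg (EE_nonneg _ _ _ _) (EE_nonneg _ _ _ _))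
  have hGi : Integrable G (mu k) := by
    refine Integrable.const_mul (integrable_unit _ ?_
      (fun θ' => integral_nonneg fun ω => mul_nonneg (EE_nonneg _ _ _ _) (EE_nonneg _ _ _ _))
      (fun θ' => integral_unit_le _ (fun ω => mul_nonneg (EE_nonneg _ _ _ _) (EE_nonneg _ _ _ _))
        fun ω => mul_le_one₀ (EE_le_one _ _ _ _) (EE_nonneg _ _ _ _) (EE_le_one _ _ _ _))) _
    have h1 : Measurable (fun q : (ℝ × (Fin k → ℝ)) × Om => HH k v θ q.2 * HH k v q.1 q.2) :=
      ((HH_meas k v).comp (measurable_const.prodMk measurable_snd)).mul (HH_meas k v)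
    exact (h1.stronglyMeasurable.integral_prod_right' (ν := gaussPi (Idx 2))).measurable
  unfold mu at hGi ⊢
  rw [integral_prod _ hGi]
  set y := cl θ.1 with hy
  have hy0 : 0 ≤ y := cl_nonneg _
  have hy1 : y ≤ 1 := cl_le_one _
  have hne : ∀ᵐ y' ∂nu, y' ≠ y := by
    unfold nu
    exact ae_restrict_of_ae (by simp [ae_iff])
  have hmem : ∀ᵐ y' ∂nu, y' ∈ Set.Ioc (0 : ℝ) 1 := ae_restrict_mem measurableSet_Ioc
  calc ∫ y', ∫ u, G (y', u) ∂(Measure.pi fun _ => nu) ∂nu
      ≤ ∫ y', exp 4 * (2 * |y - y'| ^ (-1 / 2 : ℝ)) ∂nu := by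
        refine integral_mono_of_nonneg
          (Eventually.of_forall fun y' => integral_nonneg fun u => hG0 _)
          (((sing_integrable hy0 hy1).const_mul _).const_mul _) ?_
        filter_upwards [hne, hmem] with y' h1 h2
        have hcl : cl y' = y' := cl_of_mem h2.1.le h2.2
        have hσ : ee y y' ^ 2 < 1 := by
          rw [ee_sq, exp_lt_one_iff]
          have : 0 < |y - y'| := abs_pos.2 (sub_ne_zero.2 h1.symm)
          linarith
        have h3 : |y - y'| ≤ 1 := by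
          rw [abs_le]; constructor <;> linarith [h2.1, h2.2]
        calc ∫ u, G (y', u) ∂(Measure.pi fun _ => nu)
            ≤ ∫ u : Fin k → ℝ, exp 4 * ∏ j : Fin k,
                (1 - (ee y y' * ee (pos j (θ.2 j)) (pos j (u j))) ^ 2)⁻¹
                ∂(Measure.pi fun _ => nu) := by
              refine integral_mono_of_nonneg (Eventually.of_forall fun u => hG0 _)
                (Integrable.const_mul ?_ _) (Eventually.of_forall fun u => ?_)
              · exact Integrable.fintype_prod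
                  (f := fun (j : Fin k) (t : ℝ) =>
                    (1 - (ee y y' * ee (pos j (θ.2 j)) (pos j t)) ^ 2)⁻¹)
                  (fun j => window_integrable hσ j (θ.2 j))
              · simp only [hG, HH, hcl]
                exact second_moment_pt hv y y' h1.symm _ _ (fun j => pos_mem j _)
                  (fun j => pos_mem j _)
          _ ≤ exp 4 * (2 * |y - y'| ^ (-1 / 2 : ℝ)) := by
              rw [integral_const_mul]
              exact mul_le_mul_of_nonneg_left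
                ((windows_bound hσ θ.2).trans (sing_le h1.symm h3)) (exp_pos _).le
    _ ≤ exp 4 * 8 := by
        rw [integral_const_mul, integral_const_mul]
        have := sing_bound hy0 hy1
        exact mul_le_mul_of_nonneg_left (by linarith) (exp_pos _).le

lemma aa_tendsto : Tendsto aa atTop atTop := by
  unfold aa
  exact (tendsto_pow_atTop_atTop_of_one_lt (by norm_num : (1 : ℝ) < 4)).comp
    (tendsto_add_atTop_nat 2)

lemma uniform_gap (ω : Om)
    (hω : ∀ s : ℝ, 0 < s → Set.Finite {t : ℝ | 0 < t ∧ ∀ i : Fin 2, sheet i s t ω = 0}) :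
    ∃ n : ℕ, ∀ y ∈ Set.Icc (0 : ℝ) 1, ∃ j < n, ∀ x ∈ Set.Icc (aa j) (2 * aa j),
      1 / ((n : ℝ) + 1) < ou 0 y x ω ^ 2 + ou 1 y x ω ^ 2 := by
  set f : ℝ × ℝ → ℝ := fun p => ou 0 p.1 p.2 ω ^ 2 + ou 1 p.1 p.2 ω ^ 2 with hf
  have hfc : Continuous f := ((ou_cont 0 ω).pow 2).add ((ou_cont 1 ω).pow 2)
  set U : ℕ → Set ℝ := fun n =>
    {y | ∃ j < n, ∀ x ∈ Set.Icc (aa j) (2 * aa j), 1 / ((n : ℝ) + 1) < f (y, x)} with hU
  have hopen : ∀ n, IsOpen (U n) := by
    intro n
    rw [isOpen_iff_mem_nhds]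
    rintro y ⟨j, hj, hy⟩
    have := (isCompact_Icc (a := aa j) (b := 2 * aa j)).eventually_forall_of_forall_eventually
      (x₀ := y) (P := fun y x => 1 / ((n : ℝ) + 1) < f (y, x)) (fun x hx =>
        hfc.continuousAt.eventually (lt_mem_nhds (hy x hx)))
    filter_upwards [this] with y' hy'
    exact ⟨j, hj, hy'⟩
  have hmono : Monotone U := by
    intro n m hnm y ⟨j, hj, hy⟩
    refine ⟨j, lt_of_lt_of_le hj hnm, fun x hx => lt_of_le_of_lt ?_ (hy x hx)⟩
    exact Nat.one_div_le_one_div hnm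
  have hcover : Set.Icc (0 : ℝ) 1 ⊆ ⋃ n, U n := by
    intro y _
    obtain ⟨T, hT⟩ := (hω (exp y) (exp_pos y)).bddAbove
    obtain ⟨j, hj⟩ := (aa_tendsto.eventually_gt_atTop T).exists
    have hpos : ∀ x ∈ Set.Icc (aa j) (2 * aa j), 0 < f (y, x) := by
      intro x hx
      by_contra hcon
      have h0 : ou 0 y x ω ^ 2 + ou 1 y x ω ^ 2 ≤ 0 := not_lt.1 hcon
      have h1 : ou 0 y x ω = 0 := by nlinarith [sq_nonneg (ou 0 y x ω), sq_nonneg (ou 1 y x ω)]
      have h2 : ou 1 y x ω = 0 := by nlinarith [sq_nonneg (ou 0 y x ω), sq_nonneg (ou 1 y x ω)]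
      have h3 : ∀ i : Fin 2, ou i y x ω = 0 → sheet i (exp y) (exp x) ω = 0 := by
        intro i hi
        unfold ou at hi
        exact (mul_eq_zero.1 hi).resolve_left (by positivity)
      have h4 : exp x ≤ T := hT ⟨exp_pos x, fun i => by
        fin_cases i
        · exact h3 0 h1
        · exact h3 1 h2⟩
      have h5 := add_one_le_exp x
      linarith [hx.1]
    obtain ⟨x0, hx0, hmin⟩ := (isCompact_Icc (a := aa j) (b := 2 * aa j)).exists_isMinOn
      (f := fun x => f (y, x)) ⟨aa j, le_rfl, by linarith [aa_pos j]⟩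
      (hfc.comp (continuous_const.prodMk continuous_id)).continuousOn
    obtain ⟨n, hn⟩ := exists_nat_one_div_lt (hpos x0 hx0)
    refine Set.mem_iUnion.2 ⟨max n (j + 1), j, by omega, fun x hx => ?_⟩
    refine lt_of_le_of_lt (Nat.one_div_le_one_div (le_max_left n (j + 1))) (hn.trans_le (hmin hx))
  obtain ⟨n, hn⟩ := isCompact_Icc.elim_directed_cover U hopen hcover hmono.directed_le
  exact ⟨n, fun y hy => hn hy⟩

lemma decay {δ : ℝ} (hδ : 0 < δ) :
    Tendsto (fun k : ℕ => (((k : ℝ) + 1) ^ 2) ^ k * exp (-(((k : ℝ) + 1) ^ 2 * δ) / 2))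
      atTop (𝓝 0) := by
  have h1 : Tendsto (fun k : ℕ => ((k : ℝ) + 1) * (δ / 2)) atTop atTop :=
    (tendsto_atTop_add_const_right _ 1 tendsto_natCast_atTop_atTop).atTop_mul_const (by positivity)
  have h2 : Tendsto (fun k : ℕ => ((k : ℝ) + 1) ^ 2 * exp (-(((k : ℝ) + 1) * (δ / 2))))
      atTop (𝓝 0) := by
    have h3 := ((tendsto_pow_mul_exp_neg_atTop_nhds_zero 2).comp h1).const_mul ((2 / δ) ^ 2)
    rw [mul_zero] at h3
    refine h3.congr fun k => ?_
    simp only [Function.comp]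
    field_simp
  refine squeeze_zero' (Eventually.of_forall fun k => by positivity) ?_ h2
  filter_upwards [h2.eventually (ge_mem_nhds zero_lt_one)] with k hk
  set a := ((k : ℝ) + 1) ^ 2 * exp (-(((k : ℝ) + 1) * (δ / 2))) with ha
  have ha0 : 0 ≤ a := by positivity
  have h4 : (1 : ℝ) ≤ ((k : ℝ) + 1) ^ 2 := one_le_pow₀ (by linarith [Nat.cast_nonneg (α := ℝ) k])
  calc (((k : ℝ) + 1) ^ 2) ^ k * exp (-(((k : ℝ) + 1) ^ 2 * δ) / 2)
      ≤ (((k : ℝ) + 1) ^ 2) ^ (k + 1) * exp (-(((k : ℝ) + 1) ^ 2 * δ) / 2) :=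
        mul_le_mul_of_nonneg_right (pow_le_pow_right₀ h4 (Nat.le_succ k)) (exp_pos _).le
    _ = a ^ (k + 1) := by
        rw [ha, mul_pow, ← exp_nat_mul]
        congr 2
        push_cast
        ring
    _ ≤ a := pow_le_of_le_one ha0 hk (Nat.succ_ne_zero k)

lemma EE_le_gap {k : ℕ} (v : ℝ≥0) (y : ℝ) (x : Fin k → ℝ) (ω : Om) (j : Fin k) {δ : ℝ}
    (h : δ ≤ ou 0 y (x j) ω ^ 2 + ou 1 y (x j) ω ^ 2) : EE v y x ω ≤ exp (-(v * δ) / 2) := by
  unfold EE
  rw [← exp_sum, exp_le_exp, ← sum_div, sum_neg_distrib, ← mul_sum, Fintype.sum_prod_type]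
  have h1 : ∑ i : Fin 2, ou i y (x j) ω ^ 2 ≤ ∑ l : Fin k, ∑ i : Fin 2, ou i y (x l) ω ^ 2 :=
    single_le_sum (f := fun l : Fin k => ∑ i : Fin 2, ou i y (x l) ω ^ 2)
      (fun l _ => sum_nonneg fun i _ => sq_nonneg _) (mem_univ j)
  rw [Fin.sum_univ_two] at h1
  have h2 := mul_le_mul_of_nonneg_left (h.trans h1) v.coe_nonneg
  simp only
  linarith

theorem not_ae_finite : ¬ ∀ᵐ ω ∂(gaussPi (Idx 2)), ∀ s : ℝ, 0 < s →
    Set.Finite {t : ℝ | 0 < t ∧ ∀ i : Fin 2, sheet i s t ω = 0} := by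
  intro h
  set v : ℕ → ℝ≥0 := fun k => ((k : ℝ≥0) + 1) ^ 2 with hv
  have hv0 : ∀ k, v k ≠ 0 := fun k => by simp only [hv]; positivity
  have hvc : ∀ k, (v k : ℝ) = ((k : ℝ) + 1) ^ 2 := fun k => by simp [hv]
  refine no_concentration (gaussPi (Idx 2))
    (fun k ω => (v k : ℝ) ^ k * ∫ θ, HH k (v k) θ ω ∂(mu k)) (fun k => ?_) (fun k ω => ?_)
    (fun k => ⟨(v k : ℝ) ^ k * 1, fun ω => ?_⟩) (c := exp (-2)) (C := exp 4 * 8) (exp_pos _)
    (by positivity) (fun k => first_moment (hv0 k) ?_) (fun k => second_moment (hv0 k)) ?_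
  · exact measurable_const.mul
      ((HH_meas k (v k)).stronglyMeasurable.integral_prod_left' (μ := mu k)).measurable
  · exact mul_nonneg (by positivity) (integral_nonneg fun θ => EE_nonneg _ _ _ _)
  · exact mul_le_mul_of_nonneg_left
      (integral_unit_le _ (fun θ => EE_nonneg _ _ _ _) fun θ => EE_le_one _ _ _ _) (by positivity)
  · rw [hvc]
    nlinarith [Nat.cast_nonneg (α := ℝ) k]
  · filter_upwards [h] with ω hω
    obtain ⟨n, hn⟩ := uniform_gap ω hω
    refine squeeze_zero' (Eventually.of_forall fun k =>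
      mul_nonneg (by positivity) (integral_nonneg fun θ => EE_nonneg _ _ _ _)) ?_
      (decay (δ := 1 / ((n : ℝ) + 1)) (by positivity))
    filter_upwards [eventually_ge_atTop n] with k hk
    rw [← hvc]
    refine mul_le_mul_of_nonneg_left
      (integral_unit_le _ (fun θ => EE_nonneg _ _ _ _) fun θ => ?_) (by positivity)
    obtain ⟨j, hj, hx⟩ := hn (cl θ.1) ⟨cl_nonneg _, cl_le_one _⟩
    exact EE_le_gap (v k) _ _ ω ⟨j, lt_of_lt_of_le hj hk⟩ (hx _ (pos_mem j _)).le

end Pool.Agent.MP_ba6658_pr
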