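import Mathlib

set_option autoImplicit false

open Finset Filter Topology MeasureTheory ProbabilityTheory Real
open scoped NNReal ENNReal

namespace Pool.Agent.MP_ba6658_pr

lemma gauss_upper {v : ℝ≥0} (hv : v ≠ 0) {A : ℝ} (hA : 0 < A) (m : ℝ) :
    ∫ x, exp (-(A * (x + m) ^ 2) / 2) ∂(gaussianReal 0 v) ≤ (√(v * A))⁻¹ := by
  have hv0 : (0 : ℝ) < v := by positivity
  rw [integral_gaussianReal_eq_integral_smul hv]
  have hi : Integrable (fun x : ℝ => exp (-(A / 2) * (x + m) ^ 2)) :=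
    (integrable_exp_neg_mul_sq (b := A / 2) (by positivity)).comp_add_right m
  calc ∫ x, gaussianPDFReal 0 v x • exp (-(A * (x + m) ^ 2) / 2)
      ≤ ∫ x, (√(2 * π * v))⁻¹ * exp (-(A / 2) * (x + m) ^ 2) := by
        refine integral_mono_of_nonneg (Eventually.of_forall fun x => ?_) (hi.const_mul _)
          (Eventually.of_forall fun x => ?_)
        · exact mul_nonneg (gaussianPDFReal_nonneg _ _ _) (exp_pos _).le
        · simp only [smul_eq_mul]
          have e : -(A * (x + m) ^ 2) / 2 = -(A / 2) * (x + m) ^ 2 := by ring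
          rw [e]
          refine mul_le_mul_of_nonneg_right ?_ (exp_pos _).le
          unfold gaussianPDFReal
          refine mul_le_of_le_one_right (by positivity) ?_
          rw [exp_le_one_iff, neg_div, neg_nonpos]
          positivity
    _ = (√(2 * π * v))⁻¹ * √(π / (A / 2)) := by
        rw [integral_const_mul,
          integral_add_right_eq_self (fun x : ℝ => exp (-(A / 2) * x ^ 2)) m, integral_gaussian]
    _ = (√(v * A))⁻¹ := by
        rw [← sqrt_inv, ← sqrt_inv, ← sqrt_mul (by positivity)]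
        congr 1
        field_simp

lemma gauss_exact {v : ℝ≥0} (hv : v ≠ 0) {A : ℝ} (hA : 0 ≤ A) :
    ∫ x, exp (-(A * x ^ 2) / 2) ∂(gaussianReal 0 v) = (√(1 + A * v))⁻¹ := by
  have hv0 : (0 : ℝ) < v := by positivity
  rw [integral_gaussianReal_eq_integral_smul hv]
  have e : ∀ x : ℝ, gaussianPDFReal 0 v x • exp (-(A * x ^ 2) / 2)
      = (√(2 * π * v))⁻¹ * exp (-((1 + A * v) / (2 * v)) * x ^ 2) := by
    intro x
    unfold gaussianPDFReal
    rw [smul_eq_mul, mul_assoc, ← exp_add]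
    congr 2
    field_simp
    ring
  simp_rw [e]
  rw [integral_const_mul, integral_gaussian, ← sqrt_inv, ← sqrt_inv, ← sqrt_mul (by positivity)]
  congr 1
  have : 0 < 1 + A * v := by positivity
  field_simp

lemma gauss_pair {v : ℝ≥0} (hv : v ≠ 0) {A r : ℝ} (hA : 0 < A) (hr : r ^ 2 < 1) :
    ∫ z : ℝ × ℝ, exp (-(A * (z.1 ^ 2 + 2 * r * z.1 * z.2 + z.2 ^ 2)) / 2)
        ∂((gaussianReal 0 v).prod (gaussianReal 0 v))
      ≤ (v * A * √(1 - r ^ 2))⁻¹ := by
  have hv0 : (0 : ℝ) < v := by positivity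
  have hD : 0 < A * (1 - r ^ 2) := mul_pos hA (by linarith)
  have e : ∀ z : ℝ × ℝ, exp (-(A * (z.1 ^ 2 + 2 * r * z.1 * z.2 + z.2 ^ 2)) / 2)
      = exp (-(A * (z.1 + r * z.2) ^ 2) / 2) * exp (-(A * (1 - r ^ 2) * (z.2 + 0) ^ 2) / 2) := by
    intro z
    rw [← exp_add]
    congr 1
    ring
  simp_rw [e]
  have hb : ∀ (B y : ℝ), 0 ≤ B → exp (-(B * y ^ 2) / 2) ≤ 1 := by
    intro B y hB
    rw [exp_le_one_iff, neg_div, neg_nonpos]
    positivity
  have hint : Integrable (fun z : ℝ × ℝ => exp (-(A * (z.1 + r * z.2) ^ 2) / 2)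
      * exp (-(A * (1 - r ^ 2) * (z.2 + 0) ^ 2) / 2))
      ((gaussianReal 0 v).prod (gaussianReal 0 v)) := by
    refine Integrable.of_bound (C := 1) (Measurable.aestronglyMeasurable (by fun_prop))
      (Eventually.of_forall fun z => ?_)
    rw [Real.norm_eq_abs, abs_of_pos (by positivity)]
    exact mul_le_one₀ (hb _ _ hA.le) (exp_pos _).le (hb _ _ hD.le)
  rw [integral_prod_symm _ hint]
  simp only
  simp_rw [integral_mul_const]
  have hint2 : Integrable (fun y : ℝ => exp (-(A * (1 - r ^ 2) * (y + 0) ^ 2) / 2))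
      (gaussianReal 0 v) := by
    refine Integrable.of_bound (C := 1) (Measurable.aestronglyMeasurable (by fun_prop))
      (Eventually.of_forall fun z => ?_)
    rw [Real.norm_eq_abs, abs_of_pos (by positivity)]
    exact hb _ _ hD.le
  calc ∫ y, (∫ x, exp (-(A * (x + r * y) ^ 2) / 2) ∂(gaussianReal 0 v))
          * exp (-(A * (1 - r ^ 2) * (y + 0) ^ 2) / 2) ∂(gaussianReal 0 v)
      ≤ ∫ y, (√(v * A))⁻¹ * exp (-(A * (1 - r ^ 2) * (y + 0) ^ 2) / 2) ∂(gaussianReal 0 v) := by
        refine integral_mono_of_nonneg (Eventually.of_forall fun y => ?_) (hint2.const_mul _)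
          (Eventually.of_forall fun y => ?_)
        · exact mul_nonneg (integral_nonneg fun x => (exp_pos _).le) (exp_pos _).le
        · exact mul_le_mul_of_nonneg_right (gauss_upper hv hA _) (exp_pos _).le
    _ ≤ (√(v * A))⁻¹ * (√(v * (A * (1 - r ^ 2))))⁻¹ := by
        rw [integral_const_mul]
        exact mul_le_mul_of_nonneg_left (gauss_upper hv hD 0) (by positivity)
    _ = (v * A * √(1 - r ^ 2))⁻¹ := by
        rw [← mul_inv, ← mul_assoc, sqrt_mul (x := (v : ℝ) * A) (by positivity), ← mul_assoc,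
          mul_self_sqrt (by positivity)]

lemma gauss_char (v : ℝ≥0) (z : ℝ) :
    ∫ x : ℝ, Complex.exp ((z * x : ℝ) * Complex.I) ∂(gaussianReal 0 v)
      = ((exp (-(v * z ^ 2) / 2) : ℝ) : ℂ) := by
  have := charFun_gaussianReal (μ := 0) (v := v) z
  rw [charFun_apply_real] at this
  push_cast
  rw [this]
  congr 1
  push_cast
  ring

/-- Fourier exchange formula. -/
lemma fourier_exchange {Ω Ξ : Type*} [MeasurableSpace Ω] [MeasurableSpace Ξ]
    (P : Measure Ω) [IsProbabilityMeasure P] (μ : Measure Ξ) [IsProbabilityMeasure μ]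
    (Φ : Ω → Ξ → ℝ) (hΦ : Measurable (Function.uncurry Φ)) (F : Ω → ℝ) (Q : Ξ → ℝ)
    (hQ : ∀ ξ, 0 ≤ Q ξ)
    (hF : ∀ ω, ∫ ξ, Complex.exp (Φ ω ξ * Complex.I) ∂μ = (F ω : ℂ))
    (hlaw : ∀ ξ, P.map (fun ω => Φ ω ξ) = gaussianReal 0 (Q ξ).toNNReal) :
    ∫ ω, F ω ∂P = ∫ ξ, exp (-Q ξ / 2) ∂μ := by
  have hint : Integrable (Function.uncurry fun ω ξ => Complex.exp (Φ ω ξ * Complex.I))
      (P.prod μ) := by
    refine Integrable.of_bound (C := 1) (Measurable.aestronglyMeasurable ?_)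
      (Eventually.of_forall fun z => ?_)
    · exact Complex.measurable_exp.comp
        ((Complex.measurable_ofReal.comp hΦ).mul measurable_const)
    · exact (Complex.norm_exp_ofReal_mul_I _).le
  have h1 := integral_integral_swap hint
  simp_rw [hF] at h1
  have h2 : ∀ ξ, ∫ ω, Complex.exp (Φ ω ξ * Complex.I) ∂P = ((exp (-Q ξ / 2) : ℝ) : ℂ) := by
    intro ξ
    have hm : Measurable (fun ω => Φ ω ξ) := hΦ.comp (measurable_id.prodMk measurable_const)
    have h3 := gauss_char (Q ξ).toNNReal 1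
    rw [← hlaw ξ, integral_map hm.aemeasurable (Measurable.aestronglyMeasurable (by fun_prop))]
      at h3
    simp only [one_mul, one_pow, mul_one, Real.coe_toNNReal _ (hQ ξ)] at h3
    exact h3
  simp_rw [h2] at h1
  rw [integral_complex_ofReal, integral_complex_ofReal] at h1
  exact_mod_cast h1

end Pool.Agent.MP_ba6658_pr
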