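import Mathlib

set_option autoImplicit false

open Finset Filter Topology MeasureTheory ProbabilityTheory Complex
open scoped NNReal ENNReal

namespace Pool.Agent.MP_ba6658_pr

/-- Product of standard Gaussians. -/
noncomputable def gaussPi (ι : Type) : Measure (ι → ℝ) :=
  Measure.infinitePi (fun _ : ι => gaussianReal 0 1)

instance (ι : Type) : IsProbabilityMeasure (gaussPi ι) := by
  unfold gaussPi; infer_instance

lemma gaussPi_map_eval {ι : Type} (j : ι) :
    (gaussPi ι).map (fun ω => ω j) = gaussianReal 0 1 :=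
  Measure.infinitePi_map_eval (fun _ : ι => gaussianReal 0 1) j

lemma charFun_finite_comb {ι : Type} (J : Finset ι) (α : ι → ℝ) (θ : ℝ) :
    charFun ((gaussPi ι).map (fun ω => ∑ j ∈ J, α j * ω j)) θ
      = cexp (-((∑ j ∈ J, α j ^ 2 : ℝ) : ℂ) * θ ^ 2 / 2) := by
  have hind : iIndepFun (fun (j : ι) (ω : ι → ℝ) => α j * ω j) (gaussPi ι) :=
    iIndepFun_infinitePi (P := fun _ : ι => gaussianReal 0 1) (X := fun j x => α j * x)
      (fun j => by fun_prop)
  have h := (hind.restrict J).charFun_map_fun_finsetSum_eq_prod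
    (X := fun (j : ι) (ω : ι → ℝ) => α j * ω j) (fun j _ => Measurable.aemeasurable (by fun_prop))
  rw [h, Finset.prod_apply]
  have h2 : ∀ j, charFun ((gaussPi ι).map (fun ω => α j * ω j)) θ
      = cexp (-((α j ^ 2 : ℝ) : ℂ) * θ ^ 2 / 2) := by
    intro j
    have : (gaussPi ι).map (fun ω => α j * ω j)
        = ((gaussPi ι).map (fun ω => ω j)).map (fun x => α j * x) := by
      rw [Measure.map_map (by fun_prop) (by fun_prop)]; rfl
    rw [this, gaussPi_map_eval, charFun_map_mul, charFun_gaussianReal]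
    congr 1
    push_cast
    ring
  simp_rw [h2]
  rw [← Complex.exp_sum]
  congr 1
  push_cast
  rw [neg_mul, sum_mul, neg_div, sum_div, ← sum_neg_distrib]
  refine sum_congr rfl fun j _ => by ring

lemma law_of_series {ι : Type} (J : ℕ → Finset ι) (α : ι → ℝ) (Y : (ι → ℝ) → ℝ) (V : ℝ)
    (hY : Measurable Y)
    (hlim : ∀ᵐ ω ∂(gaussPi ι), Tendsto (fun N => ∑ j ∈ J N, α j * ω j) atTop (𝓝 (Y ω)))
    (hV : Tendsto (fun N => ∑ j ∈ J N, α j ^ 2) atTop (𝓝 V)) :
    (gaussPi ι).map Y = gaussianReal 0 V.toNNReal := by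
  have hV0 : 0 ≤ V := ge_of_tendsto' hV (fun N => sum_nonneg fun j _ => sq_nonneg _)
  have : IsProbabilityMeasure ((gaussPi ι).map Y) :=
    Measure.isProbabilityMeasure_map hY.aemeasurable
  apply Measure.ext_of_charFun
  funext θ
  have h1 : Tendsto (fun N => charFun ((gaussPi ι).map (fun ω => ∑ j ∈ J N, α j * ω j)) θ)
      atTop (𝓝 (charFun ((gaussPi ι).map Y) θ)) := by
    have e : ∀ (Z : (ι → ℝ) → ℝ), Measurable Z →
        charFun ((gaussPi ι).map Z) θ = ∫ ω, cexp (θ * Z ω * I) ∂(gaussPi ι) := by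
      intro Z hZ
      rw [charFun_apply_real, integral_map hZ.aemeasurable (by fun_prop)]
    rw [e Y hY]
    have e2 : (fun N => charFun ((gaussPi ι).map (fun ω => ∑ j ∈ J N, α j * ω j)) θ)
        = fun N => ∫ ω, cexp (θ * (∑ j ∈ J N, α j * ω j : ℝ) * I) ∂(gaussPi ι) := by
      funext N
      exact e _ (by fun_prop)
    rw [e2]
    refine tendsto_integral_of_dominated_convergence (fun _ => 1) (fun N => ?_)
      (integrable_const _) (fun N => ?_) ?_
    · exact Measurable.aestronglyMeasurable (by fun_prop)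
    · refine Eventually.of_forall fun ω => ?_
      rw [← Complex.ofReal_mul, Complex.norm_exp_ofReal_mul_I]
    · filter_upwards [hlim] with ω hω
      refine (Complex.continuous_exp.tendsto _).comp ?_
      refine Tendsto.mul_const _ (Tendsto.const_mul _ ?_)
      exact (Complex.continuous_ofReal.tendsto _).comp hω
  have h2 : Tendsto (fun N => charFun ((gaussPi ι).map (fun ω => ∑ j ∈ J N, α j * ω j)) θ)
      atTop (𝓝 (cexp (-(V : ℂ) * θ ^ 2 / 2))) := by
    simp_rw [charFun_finite_comb]
    refine (Complex.continuous_exp.tendsto _).comp ?_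
    refine Tendsto.div_const (Tendsto.mul_const _ (Tendsto.neg ?_)) _
    exact (Complex.continuous_ofReal.tendsto _).comp hV
  rw [tendsto_nhds_unique h1 h2, charFun_gaussianReal]
  congr 1
  rw [Real.coe_toNNReal V hV0]
  push_cast
  ring

end Pool.Agent.MP_ba6658_pr
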