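import Pool.Agent.MP_ba6658_pr.OU
import Pool.Agent.MP_ba6658_pr.GaussInt

set_option autoImplicit false

open Finset Filter Topology MeasureTheory ProbabilityTheory Real
open scoped NNReal ENNReal

namespace Pool.Agent.MP_ba6658_pr

/-- Gaussian mollifier of the event that the sheet vanishes at all the points `(y, x j)`. -/
noncomputable def EE {k : ℕ} (v : ℝ≥0) (y : ℝ) (x : Fin k → ℝ) (ω : Om) : ℝ :=
  ∏ b : Fin k × Fin 2, exp (-(v * ou b.2 y (x b.1) ω ^ 2) / 2)

lemma exp_neg_le_one {t : ℝ} (ht : 0 ≤ t) : exp (-t / 2) ≤ 1 := by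
  rw [exp_le_one_iff]; linarith

lemma EE_nonneg {k : ℕ} (v : ℝ≥0) (y : ℝ) (x : Fin k → ℝ) (ω : Om) : 0 ≤ EE v y x ω :=
  prod_nonneg fun _ _ => (exp_pos _).le

lemma EE_le_one {k : ℕ} (v : ℝ≥0) (y : ℝ) (x : Fin k → ℝ) (ω : Om) : EE v y x ω ≤ 1 :=
  prod_le_one (fun _ _ => (exp_pos _).le) (fun _ _ => exp_neg_le_one (by positivity))

lemma first_moment_pt {k : ℕ} {v : ℝ≥0} (hv : v ≠ 0) (hkv : (k : ℝ) ≤ v) (y : ℝ)
    (x : Fin k → ℝ) (hx : ∀ j : Fin k, aa j ≤ x j ∧ x j ≤ 2 * aa j) :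
    exp (-2) ≤ (v : ℝ) ^ k * ∫ ω, EE v y x ω ∂(gaussPi (Idx 2)) := by
  have hv0 : (0 : ℝ) < v := by positivity
  have hF := fourier_exchange (gaussPi (Idx 2))
    (Measure.pi (fun _ : Fin k × Fin 2 => gaussianReal 0 v))
    (fun ω ξ => ∑ b : Fin k × Fin 2,
        (ou b.2 y (x b.1) ω * ξ b + ou b.2 y (x b.1) ω * (0 : Fin k × Fin 2 → ℝ) b))
    (by
      refine Finset.measurable_sum _ fun b _ => ?_
      have h1 := measurable_ou b.2 y (x b.1)
      exact ((h1.comp measurable_fst).mul ((measurable_pi_apply b).comp measurable_snd)).add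
        ((h1.comp measurable_fst).mul measurable_const))
    (EE v y x) (fun ξ => QQ (ee y y) x x ξ 0)
    (fun ξ => QQ_nonneg (abs_ee_le _ _) x x ξ 0 hx hx)
    (by
      intro ω
      simp only [Pi.zero_apply, mul_zero, add_zero]
      have e : ∀ ξ : Fin k × Fin 2 → ℝ,
          Complex.exp ((∑ b : Fin k × Fin 2, ou b.2 y (x b.1) ω * ξ b : ℝ) * Complex.I)
          = ∏ b : Fin k × Fin 2,
              Complex.exp ((ou b.2 y (x b.1) ω * ξ b : ℝ) * Complex.I) := by
        intro ξ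
        rw [← Complex.exp_sum, Complex.ofReal_sum, sum_mul]
      simp_rw [e]
      rw [integral_fintype_prod_eq_prod
        (fun (b : Fin k × Fin 2) (t : ℝ) =>
          Complex.exp ((ou b.2 y (x b.1) ω * t : ℝ) * Complex.I))]
      simp_rw [gauss_char]
      unfold EE
      rw [Complex.ofReal_prod])
    (fun ξ => ou_law2 y y x x ξ 0)
  rw [hF]
  set g : Fin k → ℝ := fun j => (1 / 2 : ℝ) ^ (j.1 + 1) with hg
  have hg0 : ∀ j, 0 ≤ g j := fun j => by simp only [hg]; positivity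
  have h1 : ∫ ξ : Fin k × Fin 2 → ℝ, ∏ b : Fin k × Fin 2, exp (-((1 + g b.1) * ξ b ^ 2) / 2)
        ∂(Measure.pi (fun _ : Fin k × Fin 2 => gaussianReal 0 v))
      ≤ ∫ ξ, exp (-QQ (ee y y) x x ξ 0 / 2)
        ∂(Measure.pi (fun _ : Fin k × Fin 2 => gaussianReal 0 v)) := by
    refine integral_mono_of_nonneg
      (Eventually.of_forall fun ξ => prod_nonneg fun _ _ => (exp_pos _).le) ?_
      (Eventually.of_forall fun ξ => ?_)
    · refine Integrable.of_bound (C := 1) (Measurable.aestronglyMeasurable ?_)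
        (Eventually.of_forall fun ξ => ?_)
      · unfold QQ cv
        fun_prop
      · rw [Real.norm_eq_abs, abs_of_pos (exp_pos _)]
        exact exp_neg_le_one (QQ_nonneg (abs_ee_le _ _) x x ξ 0 hx hx)
    · simp only
      rw [← exp_sum, exp_le_exp]
      have := QQ_upper (abs_ee_le y y) x x ξ 0 hx hx
      simp only [Pi.zero_apply, mul_zero, add_zero, ne_eq, OfNat.ofNat_ne_zero,
        not_false_eq_true, zero_pow] at this
      rw [← sum_div, sum_neg_distrib]
      simp only [hg]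
      linarith
  refine le_trans ?_ (mul_le_mul_of_nonneg_left h1 (by positivity))
  rw [integral_fintype_prod_eq_prod
    (fun (b : Fin k × Fin 2) (t : ℝ) => exp (-((1 + g b.1) * t ^ 2) / 2))]
  have h2 : ∀ b : Fin k × Fin 2, ∫ t, exp (-((1 + g b.1) * t ^ 2) / 2) ∂(gaussianReal 0 v)
      = (√(1 + (1 + g b.1) * v))⁻¹ := fun b => gauss_exact hv (by linarith [hg0 b.1])
  simp_rw [h2]
  rw [Fintype.prod_prod_type]
  have h3 : (v : ℝ) ^ k = ∏ _j : Fin k, (v : ℝ) := by simp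
  rw [h3, ← prod_mul_distrib]
  have h4 : ∀ j : Fin k, exp (-(g j + 1 / v))
      ≤ (v : ℝ) * ∏ _i : Fin 2, (√(1 + (1 + g j) * v))⁻¹ := by
    intro j
    have hpos : 0 < 1 + (1 + g j) * v := by have := hg0 j; positivity
    rw [Fin.prod_univ_two, ← mul_inv, mul_self_sqrt hpos.le, exp_neg]
    have h5 := add_one_le_exp (g j + 1 / v)
    have h6 : (v : ℝ) * (1 + (1 + g j) * v)⁻¹ = (g j + 1 / v + 1)⁻¹ := by
      have := hg0 j
      field_simp
      ring
    rw [h6]
    exact inv_anti₀ (by have := hg0 j; positivity) h5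
  refine le_trans ?_ (prod_le_prod (fun j _ => (exp_pos _).le) (fun j _ => h4 j))
  rw [← exp_sum, exp_le_exp, sum_neg_distrib, sum_add_distrib]
  have h7 : ∑ j, g j ≤ 1 := sum_half_pow_le k
  have h8 : ∑ _j : Fin k, (1 / v : ℝ) ≤ 1 := by
    rw [sum_const, card_univ, Fintype.card_fin, nsmul_eq_mul, mul_one_div, div_le_one hv0]
    exact hkv
  linarith

lemma second_moment_pt {k : ℕ} {v : ℝ≥0} (hv : v ≠ 0) (y y' : ℝ) (hy : y ≠ y')
    (x x' : Fin k → ℝ) (hx : ∀ j : Fin k, aa j ≤ x j ∧ x j ≤ 2 * aa j)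
    (hx' : ∀ j : Fin k, aa j ≤ x' j ∧ x' j ≤ 2 * aa j) :
    (v : ℝ) ^ k * (v : ℝ) ^ k * ∫ ω, EE v y x ω * EE v y' x' ω ∂(gaussPi (Idx 2))
      ≤ exp 4 * ∏ j : Fin k, (1 - (ee y y' * ee (x j) (x' j)) ^ 2)⁻¹ := by
  have hv0 : (0 : ℝ) < v := by positivity
  have hF := fourier_exchange (gaussPi (Idx 2))
    (Measure.pi (fun _ : Fin k × Fin 2 => (gaussianReal 0 v).prod (gaussianReal 0 v)))
    (fun ω η => ∑ b : Fin k × Fin 2,
        (ou b.2 y (x b.1) ω * (η b).1 + ou b.2 y' (x' b.1) ω * (η b).2))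
    (by
      refine Finset.measurable_sum _ fun b _ => ?_
      have h1 := measurable_ou b.2 y (x b.1)
      have h2 := measurable_ou b.2 y' (x' b.1)
      exact ((h1.comp measurable_fst).mul
          (measurable_fst.comp ((measurable_pi_apply b).comp measurable_snd))).add
        ((h2.comp measurable_fst).mul
          (measurable_snd.comp ((measurable_pi_apply b).comp measurable_snd))))
    (fun ω => EE v y x ω * EE v y' x' ω)
    (fun η => QQ (ee y y') x x' (fun b => (η b).1) (fun b => (η b).2))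
    (fun η => QQ_nonneg (abs_ee_le _ _) x x' _ _ hx hx')
    (by
      intro ω
      have e : ∀ η : Fin k × Fin 2 → ℝ × ℝ,
          Complex.exp ((∑ b : Fin k × Fin 2,
            (ou b.2 y (x b.1) ω * (η b).1 + ou b.2 y' (x' b.1) ω * (η b).2) : ℝ) * Complex.I)
          = ∏ b : Fin k × Fin 2,
              (Complex.exp ((ou b.2 y (x b.1) ω * (η b).1 : ℝ) * Complex.I)
                * Complex.exp ((ou b.2 y' (x' b.1) ω * (η b).2 : ℝ) * Complex.I)) := by
        intro η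
        simp_rw [← Complex.exp_add]
        rw [← Complex.exp_sum, Complex.ofReal_sum, sum_mul]
        congr 1
        refine sum_congr rfl fun b _ => ?_
        push_cast
        ring
      simp_rw [e]
      rw [integral_fintype_prod_eq_prod
        (fun (b : Fin k × Fin 2) (t : ℝ × ℝ) =>
          Complex.exp ((ou b.2 y (x b.1) ω * t.1 : ℝ) * Complex.I)
            * Complex.exp ((ou b.2 y' (x' b.1) ω * t.2 : ℝ) * Complex.I))]
      have e2 : ∀ b : Fin k × Fin 2, ∫ t : ℝ × ℝ,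
          Complex.exp ((ou b.2 y (x b.1) ω * t.1 : ℝ) * Complex.I)
            * Complex.exp ((ou b.2 y' (x' b.1) ω * t.2 : ℝ) * Complex.I)
            ∂((gaussianReal 0 v).prod (gaussianReal 0 v))
          = ((exp (-(v * ou b.2 y (x b.1) ω ^ 2) / 2) : ℝ) : ℂ)
            * ((exp (-(v * ou b.2 y' (x' b.1) ω ^ 2) / 2) : ℝ) : ℂ) := by
        intro b
        rw [integral_prod_mul
          (fun t : ℝ => Complex.exp ((ou b.2 y (x b.1) ω * t : ℝ) * Complex.I))
          (fun t : ℝ => Complex.exp ((ou b.2 y' (x' b.1) ω * t : ℝ) * Complex.I)),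
          gauss_char, gauss_char]
      simp_rw [e2]
      unfold EE
      rw [prod_mul_distrib, Complex.ofReal_mul, Complex.ofReal_prod, Complex.ofReal_prod])
    (fun η => ou_law2 y y' x x' _ _)
  rw [hF]
  set g : Fin k → ℝ := fun j => (1 / 2 : ℝ) ^ (j.1 + 1) with hg
  set r : Fin k → ℝ := fun j => ee y y' * ee (x j) (x' j) with hr
  have hg0 : ∀ j, 0 ≤ g j := fun j => by simp only [hg]; positivity
  have hg1 : ∀ j, g j ≤ 1 / 2 := fun j => half_pow_le _
  have hσ : ee y y' < 1 := by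
    unfold ee
    rw [exp_lt_one_iff]
    have : 0 < |y - y'| := abs_pos.2 (sub_ne_zero.2 hy)
    linarith
  have hr1 : ∀ j, r j ^ 2 < 1 := by
    intro j
    have h1 : 0 ≤ r j := mul_nonneg (ee_pos _ _).le (ee_pos _ _).le
    have h2 : r j < 1 := mul_lt_one_of_nonneg_of_lt_one_left (ee_pos _ _).le hσ (ee_le_one _ _)
    nlinarith
  have hq : ∀ (j : Fin k) (t : ℝ × ℝ), 0 ≤ (1 - g j) * (t.1 ^ 2 + 2 * r j * t.1 * t.2 + t.2 ^ 2) := by
    intro j t
    refine mul_nonneg (by linarith [hg1 j]) ?_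
    simp only [hr]
    rw [← cv_diag]; exact cv_diag_nonneg (abs_ee_le _ _) _ _ _ _
  have h1 : ∫ η, exp (-QQ (ee y y') x x' (fun b => (η b).1) (fun b => (η b).2) / 2)
        ∂(Measure.pi (fun _ : Fin k × Fin 2 => (gaussianReal 0 v).prod (gaussianReal 0 v)))
      ≤ ∫ η : Fin k × Fin 2 → ℝ × ℝ, ∏ b : Fin k × Fin 2,
          exp (-((1 - g b.1) * ((η b).1 ^ 2 + 2 * r b.1 * (η b).1 * (η b).2 + (η b).2 ^ 2)) / 2)
        ∂(Measure.pi (fun _ : Fin k × Fin 2 => (gaussianReal 0 v).prod (gaussianReal 0 v))) := by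
    refine integral_mono_of_nonneg
      (Eventually.of_forall fun η => (exp_pos _).le) ?_
      (Eventually.of_forall fun η => ?_)
    · refine Integrable.of_bound (C := 1) (Measurable.aestronglyMeasurable ?_)
        (Eventually.of_forall fun η => ?_)
      · fun_prop
      · rw [Real.norm_eq_abs, abs_of_nonneg (prod_nonneg fun _ _ => (exp_pos _).le)]
        exact prod_le_one (fun _ _ => (exp_pos _).le) (fun b _ => exp_neg_le_one (hq b.1 (η b)))
    · simp only
      rw [← exp_sum, exp_le_exp]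
      have := QQ_lower (abs_ee_le y y') x x' (fun b => (η b).1) (fun b => (η b).2) hx hx'
      rw [← sum_div, sum_neg_distrib]
      simp only [hg, hr]
      linarith
  refine le_trans (mul_le_mul_of_nonneg_left h1 (by positivity)) ?_
  rw [integral_fintype_prod_eq_prod
    (fun (b : Fin k × Fin 2) (t : ℝ × ℝ) =>
      exp (-((1 - g b.1) * (t.1 ^ 2 + 2 * r b.1 * t.1 * t.2 + t.2 ^ 2)) / 2))]
  have h2 : ∏ b : Fin k × Fin 2, ∫ t : ℝ × ℝ,
      exp (-((1 - g b.1) * (t.1 ^ 2 + 2 * r b.1 * t.1 * t.2 + t.2 ^ 2)) / 2)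
        ∂((gaussianReal 0 v).prod (gaussianReal 0 v))
      ≤ ∏ b : Fin k × Fin 2, (v * (1 - g b.1) * √(1 - r b.1 ^ 2))⁻¹ :=
    prod_le_prod (fun b _ => integral_nonneg fun t => (exp_pos _).le)
      (fun b _ => gauss_pair hv (by linarith [hg1 b.1]) (hr1 b.1))
  refine le_trans (mul_le_mul_of_nonneg_left h2 (by positivity)) ?_
  rw [Fintype.prod_prod_type]
  have h3 : (v : ℝ) ^ k = ∏ _j : Fin k, (v : ℝ) := by simp
  rw [h3, ← prod_mul_distrib, ← prod_mul_distrib]
  have h4 : ∀ j : Fin k, (v : ℝ) * v * ∏ _i : Fin 2, (v * (1 - g j) * √(1 - r j ^ 2))⁻¹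
      ≤ exp (4 * g j) * (1 - r j ^ 2)⁻¹ := by
    intro j
    have hA : 0 < 1 - g j := by linarith [hg1 j]
    have hR : 0 < 1 - r j ^ 2 := by linarith [hr1 j]
    have hs : √(1 - r j ^ 2) * √(1 - r j ^ 2) = 1 - r j ^ 2 := mul_self_sqrt hR.le
    have hs0 : 0 < √(1 - r j ^ 2) := sqrt_pos.2 hR
    have e1 : (v : ℝ) * v * ∏ _i : Fin 2, (v * (1 - g j) * √(1 - r j ^ 2))⁻¹
        = ((1 - g j)⁻¹ * (1 - g j)⁻¹) * (√(1 - r j ^ 2) * √(1 - r j ^ 2))⁻¹ := by
      rw [Fin.prod_univ_two]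
      field_simp
    rw [e1, hs]
    refine mul_le_mul_of_nonneg_right ?_ (by positivity)
    have h5 : (1 - g j)⁻¹ ≤ exp (2 * g j) := by
      rw [inv_le_iff_one_le_mul₀ hA]
      have h6 := add_one_le_exp (2 * g j)
      have := hg0 j
      have := hg1 j
      nlinarith
    calc (1 - g j)⁻¹ * (1 - g j)⁻¹ ≤ exp (2 * g j) * exp (2 * g j) :=
          mul_le_mul h5 h5 (by positivity) (exp_pos _).le
      _ = exp (4 * g j) := by rw [← exp_add]; congr 1; ring
  refine le_trans (prod_le_prod (fun j _ => ?_) (fun j _ => h4 j)) ?_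
  · have hA : 0 < 1 - g j := by linarith [hg1 j]
    exact mul_nonneg (by positivity) (prod_nonneg fun _ _ => by positivity)
  rw [prod_mul_distrib, ← exp_sum]
  refine mul_le_mul_of_nonneg_right ?_
    (prod_nonneg fun j _ => inv_nonneg.2 (by linarith [hr1 j]))
  rw [exp_le_exp, ← mul_sum]
  have h7 : ∑ j, g j ≤ 1 := sum_half_pow_le k
  linarith

end Pool.Agent.MP_ba6658_pr
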