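import Pool.Agent.MP_ba6658_pr.Sheet
import Pool.Agent.MP_ba6658_pr.Quad

set_option autoImplicit false

open Finset Filter Topology MeasureTheory ProbabilityTheory Real
open scoped NNReal ENNReal

namespace Pool.Agent.MP_ba6658_pr

/-- The sample space of the planar sheet. -/
abbrev Om : Type := Idx 2 → ℝ

/-- The stationary Ornstein-Uhlenbeck sheet attached to the Brownian sheet. -/
noncomputable def ou (i : Fin 2) (y x : ℝ) (ω : Om) : ℝ :=
  exp (-y / 2) * exp (-x / 2) * sheet i (exp y) (exp x) ω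

lemma measurable_ou (i : Fin 2) (y x : ℝ) : Measurable (ou i y x) :=
  measurable_const.mul (measurable_sheet _ _ _)

lemma ou_cont (i : Fin 2) (ω : Om) : Continuous (fun p : ℝ × ℝ => ou i p.1 p.2 ω) := by
  unfold ou
  refine Continuous.mul (by fun_prop) ?_
  exact (sheet_cont i ω).comp (f := fun p : ℝ × ℝ => (exp p.1, exp p.2)) (by fun_prop)

lemma ou_joint (i : Fin 2) : Measurable (fun q : (ℝ × ℝ) × Om => ou i q.1.1 q.1.2 q.2) :=
  measurable_uncurry_of_continuous_of_measurable (u := fun (p : ℝ × ℝ) ω => ou i p.1 p.2 ω)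
    (ou_cont i) (fun p => measurable_ou i p.1 p.2)

lemma exp_min (a b : ℝ) : exp (-a / 2) * exp (-b / 2) * min (exp a) (exp b) = ee a b := by
  unfold ee
  rcases le_total a b with h | h
  · rw [min_eq_left (exp_le_exp.2 h), abs_of_nonpos (by linarith), ← exp_add, ← exp_add]
    congr 1; ring
  · rw [min_eq_right (exp_le_exp.2 h), abs_of_nonneg (by linarith), ← exp_add, ← exp_add]
    congr 1; ring

lemma ou_law {J : Type} [Fintype J] (idx : J → Fin 2) (y x c : J → ℝ) :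
    (gaussPi (Idx 2)).map (fun ω => ∑ j, ou (idx j) (y j) (x j) ω * c j) =
      gaussianReal 0
        (∑ j, ∑ l, (if idx j = idx l then
          c j * c l * (ee (y j) (y l) * ee (x j) (x l)) else 0)).toNNReal := by
  set e := (Fintype.equivFin J).symm with he
  have h := sheet_law (d := 2) (Fintype.card J) (fun k => idx (e k)) (fun k => exp (y (e k)))
    (fun k => exp (x (e k))) (fun k => c (e k) * (exp (-y (e k) / 2) * exp (-x (e k) / 2)))
    (fun k => (exp_pos _).le) (fun k => (exp_pos _).le)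
  convert h using 2
  · funext ω
    rw [← e.sum_comp]
    refine sum_congr rfl fun k _ => ?_
    unfold ou
    ring
  · rw [← e.sum_comp]
    congr 1
    refine sum_congr rfl fun k _ => ?_
    rw [← e.sum_comp]
    refine sum_congr rfl fun l _ => ?_
    split_ifs with hkl
    · rw [← exp_min, ← exp_min]; ring
    · rfl

/-- The quadratic form of two families of window points. -/
noncomputable def QQ {k : ℕ} (σ : ℝ) (x x' : Fin k → ℝ) (ξ ξ' : Fin k × Fin 2 → ℝ) : ℝ :=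
  ∑ i : Fin 2, ∑ j, ∑ l,
    cv σ (ξ (j, i)) (ξ' (j, i)) (x j) (x' j) (ξ (l, i)) (ξ' (l, i)) (x l) (x' l)

lemma ou_law2 {k : ℕ} (y y' : ℝ) (x x' : Fin k → ℝ) (ξ ξ' : Fin k × Fin 2 → ℝ) :
    (gaussPi (Idx 2)).map (fun ω => ∑ b : Fin k × Fin 2,
        (ou b.2 y (x b.1) ω * ξ b + ou b.2 y' (x' b.1) ω * ξ' b)) =
      gaussianReal 0 (QQ (ee y y') x x' ξ ξ').toNNReal := by
  have h := ou_law (J := (Fin k × Fin 2) ⊕ (Fin k × Fin 2))
    (Sum.elim Prod.snd Prod.snd) (Sum.elim (fun _ => y) (fun _ => y'))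
    (Sum.elim (fun b => x b.1) (fun b => x' b.1)) (Sum.elim ξ ξ')
  convert h using 2
  · funext ω
    rw [Fintype.sum_sum_type, ← sum_add_distrib]
    rfl
  · congr 1
    unfold QQ cv
    simp only [Fintype.sum_sum_type, Sum.elim_inl, Sum.elim_inr, ← sum_add_distrib,
      Fintype.sum_prod_type, ee_self, ee_comm y' y]
    rw [sum_comm]
    refine sum_congr rfl fun j _ => sum_congr rfl fun i _ => sum_congr rfl fun l _ => ?_
    rw [sum_eq_single i]
    · simp only [if_true]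
      ring
    · intro i' _ hi
      simp [hi.symm]
    · simp

lemma abs_ee_le (a b : ℝ) : |ee a b| ≤ 1 := by
  rw [abs_of_pos (ee_pos _ _)]; exact ee_le_one _ _

lemma QQ_lower {k : ℕ} {σ : ℝ} (hσ : |σ| ≤ 1) (x x' : Fin k → ℝ) (ξ ξ' : Fin k × Fin 2 → ℝ)
    (hx : ∀ j : Fin k, aa j ≤ x j ∧ x j ≤ 2 * aa j)
    (hx' : ∀ j : Fin k, aa j ≤ x' j ∧ x' j ≤ 2 * aa j) :
    ∑ b : Fin k × Fin 2, (1 - (1 / 2 : ℝ) ^ (b.1.1 + 1)) *
        (ξ b ^ 2 + 2 * (σ * ee (x b.1) (x' b.1)) * ξ b * ξ' b + ξ' b ^ 2) ≤ QQ σ x x' ξ ξ' := by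
  unfold QQ
  rw [Fintype.sum_prod_type, sum_comm]
  refine sum_le_sum fun i _ => ?_
  have h := (abs_le.1 (quad_bound hσ (fun j => ξ (j, i)) (fun j => ξ' (j, i)) x x' hx hx')).1
  simp_rw [cv_diag] at h
  simp_rw [sub_mul, one_mul, sum_sub_distrib]
  linarith

lemma QQ_upper {k : ℕ} {σ : ℝ} (hσ : |σ| ≤ 1) (x x' : Fin k → ℝ) (ξ ξ' : Fin k × Fin 2 → ℝ)
    (hx : ∀ j : Fin k, aa j ≤ x j ∧ x j ≤ 2 * aa j)
    (hx' : ∀ j : Fin k, aa j ≤ x' j ∧ x' j ≤ 2 * aa j) :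
    QQ σ x x' ξ ξ' ≤ ∑ b : Fin k × Fin 2, (1 + (1 / 2 : ℝ) ^ (b.1.1 + 1)) *
        (ξ b ^ 2 + 2 * (σ * ee (x b.1) (x' b.1)) * ξ b * ξ' b + ξ' b ^ 2) := by
  unfold QQ
  rw [Fintype.sum_prod_type, sum_comm (s := univ) (t := (univ : Finset (Fin 2)))]
  refine sum_le_sum fun i _ => ?_
  have h := (abs_le.1 (quad_bound hσ (fun j => ξ (j, i)) (fun j => ξ' (j, i)) x x' hx hx')).2
  simp_rw [cv_diag] at h
  simp_rw [add_mul (1 : ℝ), one_mul, sum_add_distrib (f := fun j : Fin k =>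
    ξ (j, i) ^ 2 + 2 * (σ * ee (x j) (x' j)) * ξ (j, i) * ξ' (j, i) + ξ' (j, i) ^ 2)]
  linarith

lemma half_pow_le (j : ℕ) : (1 / 2 : ℝ) ^ (j + 1) ≤ 1 / 2 := by
  rw [pow_succ]
  have : (1 / 2 : ℝ) ^ j ≤ 1 := pow_le_one₀ (by norm_num) (by norm_num)
  linarith

lemma QQ_nonneg {k : ℕ} {σ : ℝ} (hσ : |σ| ≤ 1) (x x' : Fin k → ℝ) (ξ ξ' : Fin k × Fin 2 → ℝ)
    (hx : ∀ j : Fin k, aa j ≤ x j ∧ x j ≤ 2 * aa j)
    (hx' : ∀ j : Fin k, aa j ≤ x' j ∧ x' j ≤ 2 * aa j) : 0 ≤ QQ σ x x' ξ ξ' := by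
  refine le_trans (sum_nonneg fun b _ => mul_nonneg ?_ ?_) (QQ_lower hσ x x' ξ ξ' hx hx')
  · have := half_pow_le b.1.1
    linarith
  · rw [← cv_diag]; exact cv_diag_nonneg hσ _ _ _ _

end Pool.Agent.MP_ba6658_pr
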