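import Pool.Agent.MP_ba6658_pr.Tent
import Pool.Agent.MP_ba6658_pr.GaussSeries

set_option autoImplicit false

open Finset Filter Topology MeasureTheory ProbabilityTheory
open scoped NNReal ENNReal

namespace Pool.Agent.MP_ba6658_pr

/-- Dyadic index: level and position. -/
abbrev Kx : Type := Σ a : ℕ, Fin (2 ^ a)

/-- Index set of the Gaussian coefficients. -/
abbrev Idx (d : ℕ) : Type := Fin d × Kx × Kx

/-- Sample points with slowly growing coefficients. -/
def Good {d : ℕ} (ω : Idx d → ℝ) : Prop :=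
  ∃ C : ℕ, ∀ j : Idx d, |ω j| ≤ C * ((5 / 4) ^ j.2.1.1 * (5 / 4) ^ j.2.2.1)

lemma measurableSet_good (d : ℕ) : MeasurableSet {ω : Idx d → ℝ | Good ω} := by
  have : {ω : Idx d → ℝ | Good ω} =
      ⋃ C : ℕ, ⋂ j : Idx d,
        {ω : Idx d → ℝ | |ω j| ≤ (C : ℝ) * ((5 / 4) ^ j.2.1.1 * (5 / 4) ^ j.2.2.1)} := by
    ext ω; simp [Good]
  rw [this]
  refine MeasurableSet.iUnion fun C => MeasurableSet.iInter fun j => ?_
  exact measurableSet_le (by fun_prop) (by fun_prop)

lemma tsum_Kx_lt_top :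
    ∑' κ : Kx, ENNReal.ofReal (((4 / 5 : ℝ) ^ κ.1) ^ 4) ≠ ∞ := by
  rw [ENNReal.tsum_sigma']
  have h : ∀ a : ℕ, ∑' _k : Fin (2 ^ a), ENNReal.ofReal (((4 / 5 : ℝ) ^ a) ^ 4)
      = ENNReal.ofReal ((512 / 625 : ℝ) ^ a) := by
    intro a
    rw [tsum_fintype, sum_const, card_univ, Fintype.card_fin, nsmul_eq_mul,
      ← ENNReal.ofReal_natCast, ← ENNReal.ofReal_mul (by positivity)]
    congr 1
    push_cast
    rw [← pow_mul, mul_comm a 4, pow_mul, ← mul_pow]
    norm_num
  simp_rw [h]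
  rw [← ENNReal.ofReal_tsum_of_nonneg (fun a => by positivity)
    (summable_geometric_of_lt_one (by norm_num) (by norm_num))]
  exact ENNReal.ofReal_ne_top

lemma fourth_moment_lt_top : ∫⁻ x, ENNReal.ofReal (x ^ 4) ∂(gaussianReal 0 1) ≠ ∞ := by
  have h : Integrable (fun x : ℝ => x ^ 4) (gaussianReal 0 1) := by
    have h1 : MemLp id ((4 : ℕ) : ℝ≥0∞) (gaussianReal 0 1) :=
      memLp_id_gaussianReal' _ (by simp)
    have h2 := h1.integrable_norm_pow (by norm_num)
    refine h2.congr (Eventually.of_forall fun x => ?_)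
    simp only [id, Real.norm_eq_abs]
    exact Even.pow_abs (by decide) x
  exact h.lintegral_lt_top.ne

lemma ae_good (d : ℕ) : ∀ᵐ ω ∂(gaussPi (Idx d)), Good ω := by
  set w : Idx d → ℝ := fun j => (4 / 5) ^ j.2.1.1 * (4 / 5) ^ j.2.2.1 with hw
  set S : (Idx d → ℝ) → ℝ≥0∞ := fun ω => ∑' j : Idx d, ENNReal.ofReal ((w j * ω j) ^ 4) with hS
  have hSm : Measurable S := Measurable.tsum fun j => by fun_prop
  have hint : ∫⁻ ω, S ω ∂(gaussPi (Idx d)) ≠ ∞ := by
    rw [hS, lintegral_tsum (fun j => Measurable.aemeasurable (by fun_prop))]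
    have h1 : ∀ j : Idx d, ∫⁻ ω, ENNReal.ofReal ((w j * ω j) ^ 4) ∂(gaussPi (Idx d))
        = (ENNReal.ofReal (((4 / 5 : ℝ) ^ j.2.1.1) ^ 4)
            * ENNReal.ofReal (((4 / 5 : ℝ) ^ j.2.2.1) ^ 4))
          * ∫⁻ x, ENNReal.ofReal (x ^ 4) ∂(gaussianReal 0 1) := by
      intro j
      rw [← gaussPi_map_eval j, lintegral_map (by fun_prop) (by fun_prop),
        ← lintegral_const_mul _ (by fun_prop)]
      refine lintegral_congr fun ω => ?_
      rw [← ENNReal.ofReal_mul (by positivity), ← ENNReal.ofReal_mul (by positivity)]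
      congr 1
      simp only [hw]
      ring
    simp_rw [h1]
    rw [ENNReal.tsum_mul_right]
    refine ENNReal.mul_ne_top ?_ fourth_moment_lt_top
    rw [ENNReal.tsum_prod', tsum_fintype]
    refine ENNReal.sum_ne_top.2 fun i _ => ?_
    rw [ENNReal.tsum_prod']
    simp only
    simp_rw [ENNReal.tsum_mul_left]
    rw [ENNReal.tsum_mul_right]
    exact ENNReal.mul_ne_top tsum_Kx_lt_top tsum_Kx_lt_top
  filter_upwards [ae_lt_top hSm hint] with ω hω
  obtain ⟨C, hC⟩ := exists_nat_ge ((S ω).toReal + 1)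
  refine ⟨C, fun j => ?_⟩
  have h1 : ENNReal.ofReal ((w j * ω j) ^ 4) ≤ S ω := ENNReal.le_tsum (f := fun j : Idx d => ENNReal.ofReal ((w j * ω j) ^ 4)) j
  have h2 : (w j * ω j) ^ 4 ≤ (S ω).toReal := by
    rwa [ENNReal.ofReal_le_iff_le_toReal hω.ne] at h1
  have h3 : |w j * ω j| ≤ C := by
    have h4 : |w j * ω j| ^ 4 = (w j * ω j) ^ 4 := Even.pow_abs (by decide) _
    have h5 := abs_nonneg (w j * ω j)
    have h6 : (0 : ℝ) ≤ (S ω).toReal := ENNReal.toReal_nonneg
    rcases le_total (|w j * ω j|) 1 with h | h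
    · linarith
    · have : |w j * ω j| ≤ |w j * ω j| ^ 4 := le_self_pow₀ h (by norm_num)
      linarith
  have hw0 : 0 < w j := by simp only [hw]; positivity
  rw [abs_mul, abs_of_pos hw0] at h3
  have h7 : w j * ((5 / 4) ^ j.2.1.1 * (5 / 4) ^ j.2.2.1) = 1 := by
    simp only [hw]
    rw [mul_mul_mul_comm, ← mul_pow, ← mul_pow]
    norm_num
  have h8 : (0 : ℝ) < (5 / 4) ^ j.2.1.1 * (5 / 4) ^ j.2.2.1 := by positivity
  calc |ω j| = (w j * |ω j|) * ((5 / 4) ^ j.2.1.1 * (5 / 4) ^ j.2.2.1) := by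
        rw [mul_right_comm, h7, one_mul]
    _ ≤ _ := mul_le_mul_of_nonneg_right h3 h8.le

open Classical in
/-- Replace bad sample points by zero. -/
noncomputable def trunc {d : ℕ} (ω : Idx d → ℝ) : Idx d → ℝ := if Good ω then ω else 0

lemma good_trunc {d : ℕ} (ω : Idx d → ℝ) : Good (trunc ω) := by
  unfold trunc
  split_ifs with h
  · exact h
  · exact ⟨0, fun j => by simp⟩

lemma measurable_trunc (d : ℕ) : Measurable (trunc : (Idx d → ℝ) → (Idx d → ℝ)) := by
  classical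
  unfold trunc
  exact Measurable.ite (measurableSet_good d) measurable_id measurable_const

/-- One block of the double Schauder series. -/
noncomputable def lev {d : ℕ} (ω : Idx d → ℝ) (i : Fin d) (p : ℕ × ℕ) (z : ℝ × ℝ) : ℝ :=
  ∑ k : Fin (2 ^ p.1), ∑ l : Fin (2 ^ p.2),
    ω (i, ⟨p.1, k⟩, ⟨p.2, l⟩) * (psi p.1 k z.1 * psi p.2 l z.2)

lemma lev_cont {d : ℕ} (ω : Idx d → ℝ) (i : Fin d) (p : ℕ × ℕ) : Continuous (lev ω i p) := by
  unfold lev
  refine continuous_finsetSum _ fun k _ => continuous_finsetSum _ fun l _ => ?_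
  exact continuous_const.mul
    (((psi_cont _ _).comp continuous_fst).mul ((psi_cont _ _).comp continuous_snd))

lemma sum_psi_fin_le (a : ℕ) (u : ℝ) : ∑ k : Fin (2 ^ a), psi a k u ≤ (√2)⁻¹ ^ a := by
  rw [Fin.sum_univ_eq_sum_range (fun k => psi a k u)]
  exact sum_psi_le a u

lemma lev_bound {d : ℕ} (ω : Idx d → ℝ) (C : ℕ)
    (hC : ∀ j : Idx d, |ω j| ≤ C * ((5 / 4) ^ j.2.1.1 * (5 / 4) ^ j.2.2.1))
    (i : Fin d) (p : ℕ × ℕ) (z : ℝ × ℝ) :
    ‖lev ω i p z‖ ≤ C * ((5 / 4 * (√2)⁻¹) ^ p.1 * (5 / 4 * (√2)⁻¹) ^ p.2) := by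
  unfold lev
  set M : ℝ := C * ((5 / 4) ^ p.1 * (5 / 4) ^ p.2) with hM
  have hM0 : 0 ≤ M := by positivity
  calc ‖∑ k : Fin (2 ^ p.1), ∑ l : Fin (2 ^ p.2),
        ω (i, ⟨p.1, k⟩, ⟨p.2, l⟩) * (psi p.1 k z.1 * psi p.2 l z.2)‖
      ≤ ∑ k : Fin (2 ^ p.1), ∑ l : Fin (2 ^ p.2), M * (psi p.1 k z.1 * psi p.2 l z.2) := by
        refine (norm_sum_le _ _).trans (sum_le_sum fun k _ => ?_)
        refine (norm_sum_le _ _).trans (sum_le_sum fun l _ => ?_)
        have h0 : 0 ≤ psi p.1 k z.1 * psi p.2 l z.2 :=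
          mul_nonneg (psi_nonneg _ _ _) (psi_nonneg _ _ _)
        rw [Real.norm_eq_abs, abs_mul, abs_of_nonneg h0]
        exact mul_le_mul_of_nonneg_right (hC (i, ⟨p.1, k⟩, ⟨p.2, l⟩)) h0
    _ = M * ((∑ k : Fin (2 ^ p.1), psi p.1 k z.1) * (∑ l : Fin (2 ^ p.2), psi p.2 l z.2)) := by
        rw [sum_mul_sum, mul_sum]
        refine sum_congr rfl fun k _ => ?_
        rw [mul_sum]
    _ ≤ M * ((√2)⁻¹ ^ p.1 * (√2)⁻¹ ^ p.2) := by
        refine mul_le_mul_of_nonneg_left ?_ hM0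
        exact mul_le_mul (sum_psi_fin_le _ _) (sum_psi_fin_le _ _)
          (sum_nonneg fun l _ => psi_nonneg _ _ _) (by positivity)
    _ = _ := by rw [hM, mul_pow, mul_pow]; ring

lemma summable_bound (C : ℕ) :
    Summable (fun p : ℕ × ℕ =>
      (C : ℝ) * ((5 / 4 * (√2)⁻¹) ^ p.1 * (5 / 4 * (√2)⁻¹) ^ p.2)) := by
  have h0 : (0 : ℝ) ≤ 5 / 4 * (√2)⁻¹ := by positivity
  have h1 : (5 / 4 * (√2)⁻¹ : ℝ) < 1 := by
    have : (5 / 4 : ℝ) < √2 := Real.lt_sqrt_of_sq_lt (by norm_num)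
    rw [← div_eq_mul_inv, div_lt_one (by positivity)]
    exact this
  have h2 := summable_geometric_of_lt_one h0 h1
  exact (h2.mul_of_nonneg h2 (fun n => pow_nonneg h0 n) (fun n => pow_nonneg h0 n)).mul_left _

/-- The tied-down sheet. -/
noncomputable def bridge {d : ℕ} (ω : Idx d → ℝ) (i : Fin d) (z : ℝ × ℝ) : ℝ :=
  ∑' p : ℕ × ℕ, lev ω i p z

lemma bridge_cont {d : ℕ} (ω : Idx d → ℝ) (h : Good ω) (i : Fin d) :
    Continuous (bridge ω i) := by
  obtain ⟨C, hC⟩ := h
  exact continuous_tsum (lev_cont ω i) (summable_bound C) (lev_bound ω C hC i)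

lemma tendsto_box : Tendsto (fun N : ℕ => range N ×ˢ range N) atTop atTop := by
  refine tendsto_atTop_finset_of_monotone (fun a b h => ?_) (fun p => ?_)
  · exact product_subset_product (range_mono h) (range_mono h)
  · exact ⟨max p.1 p.2 + 1, by simp⟩

lemma bridge_tendsto {d : ℕ} (ω : Idx d → ℝ) (h : Good ω) (i : Fin d) (z : ℝ × ℝ) :
    Tendsto (fun N : ℕ => ∑ p ∈ range N ×ˢ range N, lev ω i p z) atTop (𝓝 (bridge ω i z)) := by
  obtain ⟨C, hC⟩ := h
  have hs : Summable (fun p => lev ω i p z) :=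
    Summable.of_norm_bounded (summable_bound C) (fun p => lev_bound ω C hC i p z)
  exact (show Tendsto _ atTop _ from hs.hasSum).comp tendsto_box

lemma measurable_bridge {d : ℕ} (i : Fin d) (z : ℝ × ℝ) :
    Measurable (fun ω : Idx d → ℝ => bridge ω i z) := by
  unfold bridge lev
  exact Measurable.tsum fun p => by fun_prop

/-- The Brownian sheet. -/
noncomputable def sheet {d : ℕ} (i : Fin d) (s t : ℝ) (ω : Idx d → ℝ) : ℝ :=
  (1 + max s 0) * (1 + max t 0) * bridge (trunc ω) i (sq s, sq t)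

lemma sheet_cont {d : ℕ} (i : Fin d) (ω : Idx d → ℝ) :
    Continuous (fun p : ℝ × ℝ => sheet i p.1 p.2 ω) := by
  unfold sheet
  refine Continuous.mul (by fun_prop) ?_
  exact (bridge_cont _ (good_trunc ω) i).comp
    ((sq_cont.comp continuous_fst).prodMk (sq_cont.comp continuous_snd))

lemma measurable_sheet {d : ℕ} (i : Fin d) (s t : ℝ) :
    Measurable (sheet i s t : (Idx d → ℝ) → ℝ) := by
  unfold sheet
  exact measurable_const.mul ((measurable_bridge i _).comp (measurable_trunc d))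

/-- Dyadic indices of level below `N`. -/
def KN (N : ℕ) : Finset Kx := (range N).sigma (fun a => (univ : Finset (Fin (2 ^ a))))

/-- Schauder function after the change of time. -/
noncomputable def gg (κ : Kx) (s : ℝ) : ℝ := (1 + max s 0) * psi κ.1 κ.2 (sq s)

lemma sum_gg_tendsto {s s' : ℝ} (hs : 0 ≤ s) (hs' : 0 ≤ s') :
    Tendsto (fun N => ∑ κ ∈ KN N, gg κ s * gg κ s') atTop (𝓝 (min s s')) := by
  rw [← ker_sq hs hs']
  have := (sum_psi_mul_tendsto (sq s) (sq s')).const_mul ((1 + max s 0) * (1 + max s' 0))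
  refine this.congr fun N => ?_
  unfold KN gg
  rw [sum_sigma, mul_sum]
  refine sum_congr rfl fun a _ => ?_
  rw [mul_sum, ← Fin.sum_univ_eq_sum_range
    (fun k => (1 + max s 0) * (1 + max s' 0) * (psi a k (sq s) * psi a k (sq s')))]
  refine sum_congr rfl fun k _ => by ring

lemma partial_sum_eq {d : ℕ} (ω : Idx d → ℝ) (i : Fin d) (s t : ℝ) (N : ℕ) :
    (1 + max s 0) * (1 + max t 0) * ∑ p ∈ range N ×ˢ range N, lev ω i p (sq s, sq t)
      = ∑ κ ∈ KN N, ∑ κ' ∈ KN N, ω (i, κ, κ') * (gg κ s * gg κ' t) := by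
  unfold KN lev gg
  rw [sum_product, sum_sigma, mul_sum]
  refine sum_congr rfl fun a _ => ?_
  simp_rw [sum_sigma]
  rw [sum_comm, mul_sum]
  refine sum_congr rfl fun b _ => ?_
  rw [mul_sum]
  refine sum_congr rfl fun k _ => ?_
  rw [mul_sum]
  refine sum_congr rfl fun l _ => by ring

theorem sheet_law {d : ℕ} (n : ℕ) (idx : Fin n → Fin d) (s t c : Fin n → ℝ)
    (hs : ∀ k, 0 ≤ s k) (ht : ∀ k, 0 ≤ t k) :
    (gaussPi (Idx d)).map (fun ω => ∑ k, c k * sheet (idx k) (s k) (t k) ω) =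
      gaussianReal 0
        (∑ k, ∑ l, (if idx k = idx l then
          c k * c l * (min (s k) (s l) * min (t k) (t l)) else 0)).toNNReal := by
  set α : Idx d → ℝ := fun j =>
    ∑ m, if idx m = j.1 then c m * (gg j.2.1 (s m) * gg j.2.2 (t m)) else 0 with hα
  refine law_of_series (fun N => univ ×ˢ (KN N ×ˢ KN N)) α _ _ ?_ ?_ ?_
  · exact Finset.measurable_sum _ fun k _ => measurable_const.mul (measurable_sheet _ _ _)
  · filter_upwards [ae_good d] with ω hω
    have htr : trunc ω = ω := by unfold trunc; rw [if_pos hω]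
    have h1 : ∀ N, ∑ j ∈ univ ×ˢ (KN N ×ˢ KN N), α j * ω j
        = ∑ m, c m * ((1 + max (s m) 0) * (1 + max (t m) 0) *
            ∑ p ∈ range N ×ˢ range N, lev ω (idx m) p (sq (s m), sq (t m))) := by
      intro N
      simp_rw [partial_sum_eq, hα, sum_mul]
      rw [sum_comm]
      refine sum_congr rfl fun m _ => ?_
      rw [sum_product, sum_eq_single (idx m)]
      · rw [sum_product, mul_sum]
        refine sum_congr rfl fun κ _ => ?_
        rw [mul_sum]
        refine sum_congr rfl fun κ' _ => ?_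
        simp only [if_true]
        ring
      · intro i _ hi
        refine sum_eq_zero fun q _ => ?_
        simp [hi.symm]
      · simp
    simp_rw [h1]
    refine tendsto_finsetSum _ fun m _ => Tendsto.const_mul _ ?_
    unfold sheet
    rw [htr]
    exact (bridge_tendsto ω hω _ _).const_mul _
  · have h1 : ∀ N, ∑ j ∈ univ ×ˢ (KN N ×ˢ KN N), α j ^ 2
        = ∑ k, ∑ l, (if idx k = idx l then
          c k * c l * ((∑ κ ∈ KN N, gg κ (s k) * gg κ (s l))
            * (∑ κ ∈ KN N, gg κ (t k) * gg κ (t l))) else 0) := by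
      intro N
      simp_rw [hα, pow_two, sum_mul_sum]
      rw [sum_comm]
      refine sum_congr rfl fun k _ => ?_
      rw [sum_comm]
      refine sum_congr rfl fun l _ => ?_
      rw [sum_product, sum_eq_single (idx k)]
      · by_cases h : idx k = idx l
        · rw [if_pos h, sum_product, mul_sum]
          refine sum_congr rfl fun κ _ => ?_
          rw [mul_sum]
          refine sum_congr rfl fun κ' _ => ?_
          simp only [if_true, h]
          ring
        · rw [if_neg h]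
          refine sum_eq_zero fun q _ => ?_
          simp [Ne.symm h]
      · intro i _ hi
        refine sum_eq_zero fun q _ => ?_
        simp [hi.symm]
      · simp
    simp_rw [h1]
    refine tendsto_finsetSum _ fun k _ => tendsto_finsetSum _ fun l _ => ?_
    split_ifs with h
    · exact ((sum_gg_tendsto (hs k) (hs l)).mul (sum_gg_tendsto (ht k) (ht l))).const_mul _
    · exact tendsto_const_nhds

end Pool.Agent.MP_ba6658_pr
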