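import Mathlib

set_option autoImplicit false

open Finset Filter Topology

namespace Pool.Agent.MP_ba6658_pr

/-- Clamp to the unit interval. -/
noncomputable def cl (x : ℝ) : ℝ := max 0 (min x 1)

/-- The tent function, supported on the unit interval. -/
noncomputable def tent (x : ℝ) : ℝ := (cl (2 * x) - cl (2 * x - 1)) / 2

/-- The covariance kernel of the Brownian bridge, extended by zero. -/
noncomputable def ker (x y : ℝ) : ℝ := cl (min x y) - cl x * cl y

lemma cl_mono : Monotone cl := fun _ _ h => max_le_max le_rfl (min_le_min h le_rfl)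

lemma cl_nonneg (x : ℝ) : 0 ≤ cl x := le_max_left _ _

lemma cl_le_one (x : ℝ) : cl x ≤ 1 := max_le zero_le_one (min_le_right _ _)

lemma cl_cont : Continuous cl := by unfold cl; fun_prop

lemma cl_of_mem {x : ℝ} (h0 : 0 ≤ x) (h1 : x ≤ 1) : cl x = x := by
  unfold cl; rw [min_eq_left h1, max_eq_right h0]

lemma cl_of_nonpos {x : ℝ} (h0 : x ≤ 0) : cl x = 0 := by
  unfold cl; exact max_eq_left (le_trans (min_le_left _ _) h0)

lemma cl_of_one_le {x : ℝ} (h0 : 1 ≤ x) : cl x = 1 := by
  unfold cl; rw [min_eq_right h0, max_eq_right zero_le_one]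

lemma cl_split (x : ℝ) : cl x = (cl (2 * x) + cl (2 * x - 1)) / 2 := by
  rcases le_total x 0 with h | h
  · rw [cl_of_nonpos h, cl_of_nonpos (by linarith), cl_of_nonpos (by linarith)]; ring
  rcases le_total x (1 / 2) with h2 | h2
  · rw [cl_of_mem h (by linarith), cl_of_mem (by linarith) (by linarith),
      cl_of_nonpos (by linarith)]; ring
  rcases le_total x 1 with h3 | h3
  · rw [cl_of_mem h h3, cl_of_one_le (by linarith), cl_of_mem (by linarith) (by linarith)]; ring
  · rw [cl_of_one_le h3, cl_of_one_le (by linarith), cl_of_one_le (by linarith)]; ring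

lemma tent_cont : Continuous tent := by
  unfold tent
  have := cl_cont
  fun_prop

lemma tent_nonneg (x : ℝ) : 0 ≤ tent x := by
  unfold tent
  have := cl_mono (show 2 * x - 1 ≤ 2 * x by linarith)
  linarith

lemma ker_rec (x y : ℝ) :
    ker x y = tent x * tent y + ker (2 * x) (2 * y) / 2 + ker (2 * x - 1) (2 * y - 1) / 2 := by
  unfold ker tent
  have h1 : min (2 * x) (2 * y) = 2 * min x y := by
    rcases le_total x y with h | h
    · rw [min_eq_left h, min_eq_left (by linarith)]
    · rw [min_eq_right h, min_eq_right (by linarith)]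
  have h2 : min (2 * x - 1) (2 * y - 1) = 2 * min x y - 1 := by
    rcases le_total x y with h | h
    · rw [min_eq_left h, min_eq_left (by linarith)]
    · rw [min_eq_right h, min_eq_right (by linarith)]
  rw [h1, h2, cl_split (min x y), cl_split x, cl_split y]
  ring

lemma ker_nonneg (x y : ℝ) : 0 ≤ ker x y := by
  unfold ker
  have := cl_nonneg x
  have := cl_nonneg y
  have := cl_le_one x
  have := cl_le_one y
  rcases le_total x y with h | h
  · rw [min_eq_left h]; nlinarith
  · rw [min_eq_right h]; nlinarith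

lemma ker_le (x y : ℝ) : ker x y ≤ cl x - cl (x - 1) := by
  unfold ker
  have h0 := cl_nonneg x
  have h1 := cl_nonneg y
  have h2 := cl_le_one y
  rcases le_total x 1 with h | h
  · rw [cl_of_nonpos (show x - 1 ≤ 0 by linarith)]
    have := cl_mono (min_le_left x y)
    nlinarith
  · have h3 := cl_mono (min_le_right x y)
    have h4 := cl_le_one (x - 1)
    rw [cl_of_one_le h]
    linarith

lemma sum_telescope_le (x : ℝ) (n : ℕ) :
    ∑ k ∈ range n, (cl (x - k) - cl (x - k - 1)) ≤ 1 := by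
  have : ∑ k ∈ range n, (cl (x - k) - cl (x - k - 1)) = cl x - cl (x - n) := by
    induction n with
    | zero => simp
    | succ n ih => rw [sum_range_succ, ih]; push_cast; ring_nf
  rw [this]
  have := cl_le_one x
  have := cl_nonneg (x - n)
  linarith

lemma tent_le (x : ℝ) : tent x ≤ cl x - cl (x - 1) := by
  rw [cl_split x, cl_split (x - 1)]
  unfold tent
  have h1 := cl_mono (show 2 * (x - 1) ≤ 2 * x - 1 by linarith)
  have h2 := cl_mono (show 2 * (x - 1) - 1 ≤ 2 * x - 1 by linarith)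
  linarith

lemma sum_tent_le (x : ℝ) (n : ℕ) : ∑ k ∈ range n, tent (x - k) ≤ 1 :=
  le_trans (sum_le_sum fun k _ => tent_le (x - k)) (sum_telescope_le x n)

lemma sum_ker_le (x y : ℝ) (n : ℕ) : ∑ k ∈ range n, ker (x - k) (y - k) ≤ 1 :=
  le_trans (sum_le_sum fun k _ => ker_le (x - k) (y - k)) (sum_telescope_le x n)

lemma sum_range_two_mul (f : ℕ → ℝ) (n : ℕ) :
    ∑ k ∈ range (2 * n), f k = ∑ k ∈ range n, (f (2 * k) + f (2 * k + 1)) := by
  induction n with
  | zero => simp
  | succ n ih =>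
    rw [show 2 * (n + 1) = 2 * n + 1 + 1 by ring, sum_range_succ, sum_range_succ, ih,
      sum_range_succ]
    ring

/-- Remainder after `N` levels. -/
noncomputable def rem (N : ℕ) (u v : ℝ) : ℝ :=
  (1 / 2) ^ N * ∑ k ∈ range (2 ^ N), ker (2 ^ N * u - k) (2 ^ N * v - k)

lemma rem_zero (u v : ℝ) : rem 0 u v = ker u v := by simp [rem]

lemma rem_succ (N : ℕ) (u v : ℝ) :
    rem N u v = (1 / 2) ^ N * ∑ k ∈ range (2 ^ N), tent (2 ^ N * u - k) * tent (2 ^ N * v - k)
      + rem (N + 1) u v := by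
  unfold rem
  rw [pow_succ' 2 N, sum_range_two_mul, pow_succ (1 / 2 : ℝ) N, mul_assoc, ← mul_add, mul_sum,
    mul_sum, ← sum_add_distrib, mul_sum]
  refine sum_congr rfl fun k _ => ?_
  rw [ker_rec]
  push_cast
  have e1 : (2 : ℝ) * (2 ^ N * u - k) = 2 ^ (N + 1) * u - 2 * k := by ring
  have e2 : (2 : ℝ) * (2 ^ N * v - k) = 2 ^ (N + 1) * v - 2 * k := by ring
  have e3 : (2 : ℝ) ^ (N + 1) * u - 2 * k - 1 = 2 ^ (N + 1) * u - (2 * k + 1) := by ring
  have e4 : (2 : ℝ) ^ (N + 1) * v - 2 * k - 1 = 2 ^ (N + 1) * v - (2 * k + 1) := by ring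
  rw [e1, e2, e3, e4]
  ring

lemma rem_tendsto (u v : ℝ) : Tendsto (fun N => rem N u v) atTop (𝓝 0) := by
  have h : Tendsto (fun N : ℕ => (1 / 2 : ℝ) ^ N) atTop (𝓝 0) :=
    tendsto_pow_atTop_nhds_zero_of_lt_one (by norm_num) (by norm_num)
  refine squeeze_zero (fun N => ?_) (fun N => ?_) h
  · exact mul_nonneg (by positivity) (sum_nonneg fun k _ => ker_nonneg _ _)
  · unfold rem
    have := sum_ker_le (2 ^ N * u) (2 ^ N * v) (2 ^ N)
    have h0 : (0 : ℝ) ≤ (1 / 2) ^ N := by positivity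
    nlinarith

/-- Normalised Schauder function of level `a` and position `k`. -/
noncomputable def psi (a k : ℕ) (u : ℝ) : ℝ := (√2)⁻¹ ^ a * tent (2 ^ a * u - k)

lemma psi_cont (a k : ℕ) : Continuous (psi a k) := by
  unfold psi
  have := tent_cont
  fun_prop

lemma psi_nonneg (a k : ℕ) (u : ℝ) : 0 ≤ psi a k u :=
  mul_nonneg (by positivity) (tent_nonneg _)

lemma sum_psi_le (a : ℕ) (u : ℝ) : ∑ k ∈ range (2 ^ a), psi a k u ≤ (√2)⁻¹ ^ a := by
  unfold psi
  rw [← mul_sum]
  have := sum_tent_le (2 ^ a * u) (2 ^ a)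
  have h0 : (0 : ℝ) ≤ (√2)⁻¹ ^ a := by positivity
  nlinarith

lemma sum_psi_mul (N : ℕ) (u v : ℝ) :
    ∑ a ∈ range N, ∑ k ∈ range (2 ^ a), psi a k u * psi a k v = ker u v - rem N u v := by
  induction N with
  | zero => simp [rem_zero]
  | succ N ih =>
    rw [sum_range_succ, ih, rem_succ N u v]
    have : ∑ k ∈ range (2 ^ N), psi N k u * psi N k v =
        (1 / 2) ^ N * ∑ k ∈ range (2 ^ N), tent (2 ^ N * u - k) * tent (2 ^ N * v - k) := by
      rw [mul_sum]
      refine sum_congr rfl fun k _ => ?_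
      unfold psi
      have h2 : (√2)⁻¹ ^ N * (√2)⁻¹ ^ N = (1 / 2 : ℝ) ^ N := by
        rw [← mul_pow, ← mul_inv, Real.mul_self_sqrt (by norm_num)]; norm_num
      rw [← h2]; ring
    rw [this]; ring

lemma sum_psi_mul_tendsto (u v : ℝ) :
    Tendsto (fun N => ∑ a ∈ range N, ∑ k ∈ range (2 ^ a), psi a k u * psi a k v) atTop
      (𝓝 (ker u v)) := by
  simp_rw [sum_psi_mul]
  simpa using (tendsto_const_nhds (x := ker u v)).sub (rem_tendsto u v)

/-- The compactifying change of time. -/
noncomputable def sq (s : ℝ) : ℝ := max s 0 / (1 + max s 0)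

lemma sq_cont : Continuous sq := by
  unfold sq
  refine Continuous.div (by fun_prop) (by fun_prop) fun x => ?_
  have := le_max_right x 0
  linarith

lemma ker_sq {s s' : ℝ} (hs : 0 ≤ s) (hs' : 0 ≤ s') :
    (1 + max s 0) * (1 + max s' 0) * ker (sq s) (sq s') = min s s' := by
  have key : ∀ {s s' : ℝ}, 0 ≤ s → s ≤ s' →
      (1 + s) * (1 + s') * (s / (1 + s) - s / (1 + s) * (s' / (1 + s'))) = s := by
    intro s s' h1 h2
    have : (1 + s) ≠ 0 := by linarith
    have : (1 + s') ≠ 0 := by linarith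
    field_simp
    ring
  have hm : ∀ {s : ℝ}, 0 ≤ s → cl (s / (1 + s)) = s / (1 + s) := by
    intro s h
    refine cl_of_mem (by positivity) ?_
    rw [div_le_one (by linarith)]; linarith
  have hmono : ∀ {s s' : ℝ}, 0 ≤ s → s ≤ s' → s / (1 + s) ≤ s' / (1 + s') := by
    intro s s' h1 h2
    rw [div_le_div_iff₀ (by linarith) (by linarith)]; nlinarith
  unfold ker sq
  rw [max_eq_left hs, max_eq_left hs']
  rcases le_total s s' with h | h
  · rw [min_eq_left (hmono hs h), min_eq_left h, hm hs, hm hs']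
    exact key hs h
  · rw [min_eq_right (hmono hs' h), min_eq_right h, hm hs, hm hs']
    have := key hs' h
    linarith

end Pool.Agent.MP_ba6658_pr
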